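import Pool.Agent.Lib.MP_5e7226_co.MM.Defs

/-! Row M3 (`alpha`): two antipodal normals at rim points; reduction to Lemma U. -/

set_option autoImplicit false

open Set Filter Topology

namespace Pool.Agent.Lib.MP_5e7226_co.MM

open PS CM

variable {B : Set E} {f : E → ℝ}

theorem m3_negl {l k : E →ₗ[ℝ] ℝ} {u v : E} (h : Dual l k u v) : Dual (-l) k (-u) v where
  lu := by simp [h.lu]
  lv := by simp [h.lv]
  ku := by simp [h.ku]
  kv := h.kv
  dec := fun x => by simp [h.dec]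

theorem m3_core (H : PP B f f) (hM : ∀ P, PSet B f f P → ∀ x ∈ B, f x ≤ f P)
    {l k : E →ₗ[ℝ] ℝ} {u v TR y' : E} (hd : Dual l k u v) (hTR : TR ∈ B)
    (hmax : ∀ z ∈ B, l z ≤ l TR) (hk : ∀ z ∈ B, l z = l TR → z ≠ TR → k z < k TR)
    (hfTR : f TR = 0) (hy' : y' ∈ B) (hmin : ∀ z ∈ B, l y' ≤ l z) (hfy' : f y' = 0) :
    ∃ TL BL BR, UU B f l k u v TL TR BL BR := by
  obtain ⟨BL, O⟩ := exists_opp H.toPF hd hTR hmax hk
  have hPBL : PSet B f f BL := ⟨TR, l, k, u, v, O, ⟨hfTR, hfTR⟩⟩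
  obtain ⟨c, hc⟩ := H.int
  have hm0 : 0 < f BL := (H.fpos c hc).trans_le (hM BL hPBL c (interior_subset hc))
  have hly : l BL = l y' := le_antisymm (O.ge y' hy') (hmin BL O.Pmem)
  obtain ⟨BR, hBR, q, hq, e1, e2, g1, g2, t, ht0, ht1, hyt⟩ := mem_face_seg H.toPF hd hy'
  -- `q` is the left end
  have hqBL : q = BL := by
    by_contra hne
    have h1 := O.Pgt q hq (by rw [e2, hly]) hne
    have h2 := g2 BL O.Pmem hly (Ne.symm hne)
    simp only [LinearMap.neg_apply] at h2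
    linarith
  have hyBR : y' = BR := by
    by_cases h : t = 0
    · rw [hyt, h]; simp
    · exfalso
      have h1 := H.fconc.2 hBR hq (sub_nonneg.2 ht1) ht0 (by ring)
      rw [← hyt, hfy'] at h1
      have h0 := H.f0 BR hBR
      rw [hqBL] at h1
      simp only [smul_eq_mul] at h1
      have h2 : 0 < t := lt_of_le_of_ne ht0 (Ne.symm h)
      nlinarith [mul_nonneg (sub_nonneg.2 ht1) h0, mul_pos h2 hm0]
  subst hyBR
  obtain ⟨TL, O'⟩ := exists_opp H.toPF (m3_negl hd) hy'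
    (fun z hz => by simpa using hmin z hz)
    (fun z hz hlz hne => g1 z hz (by simpa using hlz) hne)
  have hPTL : PSet B f f TL := ⟨y', -l, k, -u, v, O', ⟨hfy', hfy'⟩⟩
  have hlTL : l TL = l TR := by
    apply le_antisymm (hmax TL O'.Pmem)
    have := O'.ge TR hTR
    simpa using this
  refine ⟨TL, BL, y', ⟨hd, O'.Pmem, hTR, O.Pmem, hy', hmax, hlTL, ?_, ?_, hmin, hly, ?_, ?_,
    hM TL hPTL, hM BL hPBL, hfTR, Or.inl hfy'⟩⟩
  · intro z hz hlz
    by_cases h : z = TL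
    · rw [h]
    · exact (O'.Pgt z hz (by simp [hlz, hlTL]) h).le
  · intro z hz hlz
    by_cases h : z = TR
    · rw [h]
    · exact (hk z hz hlz h).le
  · intro z hz hlz
    by_cases h : z = BL
    · rw [h]
    · exact (O.Pgt z hz (by rw [hlz, hly]) h).le
  · intro z hz hlz
    by_cases h : z = y'
    · rw [h]
    · exact (g1 z hz hlz h).le

/-- M3 -/
theorem alpha (H : PP B f f) (_hA : ∀ P, PSet B f f P → ¬ Rim f f P)
    (hM : ∀ P, PSet B f f P → ∀ x ∈ B, f x ≤ f P) {n : E →ₗ[ℝ] ℝ} (h1 : TH B f n)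
    (h2 : TH B f (-n)) : ∃ l k u v TL TR BL BR, UU B f l k u v TL TR BL BR := by
  obtain ⟨y, hy, hfy, hn0, hn⟩ := h1
  obtain ⟨y', hy', hfy', _, hn'⟩ := h2
  obtain ⟨c, k, u, v, hc, hd⟩ := exists_dual n hn0
  have hmax : ∀ z ∈ B, (c • n) z ≤ (c • n) y := by
    intro z hz
    simp only [LinearMap.smul_apply, smul_eq_mul]
    exact mul_le_mul_of_nonneg_left (hn z hz) hc.le
  have hmin : ∀ z ∈ B, (c • n) y' ≤ (c • n) z := by
    intro z hz
    have := hn' z hz
    simp only [LinearMap.neg_apply, neg_le_neg_iff] at this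
    simp only [LinearMap.smul_apply, smul_eq_mul]
    exact mul_le_mul_of_nonneg_left this hc.le
  obtain ⟨TR, hTR, TL, hTL, e1, e2, g1, g2, t, ht0, ht1, hyt⟩ := mem_face_seg H.toPF hd hy
  have hconc : (1 - t) * f TR + t * f TL ≤ 0 := by
    have a1 := H.fconc.2 hTR hTL (sub_nonneg.2 ht1) ht0 (by ring)
    rw [← hyt, hfy] at a1
    exact a1
  have f1 := H.f0 TR hTR
  have f2 := H.f0 TL hTL
  rcases lt_or_eq_of_le ht1 with ht2 | ht2
  · have r1 : f TR = 0 := by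
      have : (1 - t) * f TR ≤ 0 := by nlinarith [mul_nonneg ht0 f2]
      nlinarith
    obtain ⟨TL', BL, BR, hU⟩ := m3_core H hM hd hTR (fun z hz => by rw [e1]; exact hmax z hz)
      (fun z hz hlz hne => g1 z hz (by rw [hlz, e1]) hne) r1 hy' hmin hfy'
    exact ⟨_, _, _, _, _, _, _, _, hU⟩
  · have r1 : f TL = 0 := by
      rw [ht2] at hconc
      nlinarith
    obtain ⟨TL', BL, BR, hU⟩ := m3_core H hM hd.negk hTL
      (fun z hz => by rw [e2]; exact hmax z hz)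
      (fun z hz hlz hne => g2 z hz (by rw [hlz, e2]) hne) r1 hy' hmin hfy'
    exact ⟨_, _, _, _, _, _, _, _, hU⟩

end Pool.Agent.Lib.MP_5e7226_co.MM
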