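import Pool.Agent.Lib.MP_5e7226_co.MM.Defs

/-! Row M8. -/

set_option autoImplicit false

open Set Filter Topology

namespace Pool.Agent.Lib.MP_5e7226_co.MM

open PS CM

variable {B : Set E} {f : E → ℝ}

theorem r8_bound (H : PP B f f) (l : E →ₗ[ℝ] ℝ) : ∃ C : ℝ, 0 < C ∧ ∀ x ∈ B, |l x| ≤ C := by
  obtain ⟨C, hC⟩ := H.cpt.exists_bound_of_continuousOn (cont_lin l).continuousOn
  refine ⟨|C| + 1, by positivity, fun x hx => ?_⟩
  have h1 := hC x hx
  rw [Real.norm_eq_abs] at h1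
  have h2 := le_abs_self C
  linarith

/-- M8. The point `W'` (before moving it into the interior). -/
theorem exists_Q (H : PP B f f) {m : ℝ} (hm : ∀ x ∈ B, f x ≤ m) (hm0 : 0 < m)
    (hF : ∀ n, TH B f n → ∃ P ∈ B, f P = m ∧ ∀ x ∈ B, n P ≤ n x)
    (hα : ∀ n, TH B f n → ¬ TH B f (-n)) {l₁ l₂ l₃ : E →ₗ[ℝ] ℝ}
    (h1 : TH B f l₁) (h2 : TH B f l₂) (h3 : TH B f l₃) (hsum : l₁ + l₂ + l₃ = 0) {P : E}
    (hP : P ∈ B) (hPm : f P = m) (hPl : ∀ x ∈ B, l₁ P ≤ l₁ x) :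
    ∃ Q ∈ B, f Q = m ∧ ∃ β₀ : ℝ, 0 ≤ β₀ ∧ (∀ β : ℝ, 0 < β → TH B f (-(l₃ + β • l₁)) → β₀ ≤ β) ∧
      0 < l₃ (Q - P) + β₀ * l₁ (Q - P) := by
  have h3' := h3
  have _ := hm
  have e2 : l₂ = -(l₃ + l₁) := by
    rw [eq_neg_iff_add_eq_zero, ← hsum]
    abel
  have hl1 : l₁ ≠ 0 := by
    obtain ⟨_, _, _, hn, _⟩ := h1
    exact hn
  set S : Set ℝ := {β | 0 < β ∧ TH B f (-(l₃ + β • l₁))} with hS
  have h1S : (1 : ℝ) ∈ S := by
    refine ⟨one_pos, ?_⟩
    rw [one_smul, ← e2]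
    exact h2
  have hbdd : BddBelow S := ⟨0, fun β hβ => hβ.1.le⟩
  set β₀ := sInf S with hβ₀
  have hβ0 : 0 ≤ β₀ := le_csInf ⟨1, h1S⟩ (fun β hβ => hβ.1.le)
  have hβle : ∀ β ∈ S, β₀ ≤ β := fun β hβ => csInf_le hbdd hβ
  by_contra hcon
  push Not at hcon
  have hcon' : ∀ Q ∈ B, f Q = m → l₃ (Q - P) + β₀ * l₁ (Q - P) ≤ 0 := fun Q hQ hfQ =>
    hcon Q hQ hfQ β₀ hβ0 (fun β hβ hTH => hβle β ⟨hβ, hTH⟩)
  obtain ⟨C, hC, hCb⟩ := r8_bound H l₁
  have hsmall : ∀ δ : ℝ, 0 < δ → ∃ β ∈ S, β < β₀ + δ := fun δ hδ =>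
    exists_lt_of_csInf_lt ⟨1, h1S⟩ (show sInf S < β₀ + δ by linarith)
  have hPβ : ∀ β ∈ S, ∃ R ∈ B, f R = m ∧ ∀ x ∈ B, l₃ x + β * l₁ x ≤ l₃ R + β * l₁ R := by
    rintro β ⟨hβ, hTH⟩
    obtain ⟨R, hR, hfR, hmin⟩ := hF _ hTH
    refine ⟨R, hR, hfR, fun x hx => ?_⟩
    have := hmin x hx
    simp only [LinearMap.neg_apply, LinearMap.add_apply, LinearMap.smul_apply, smul_eq_mul] at this
    linarith
  have hmax : ∀ w ∈ B, l₃ w + β₀ * l₁ w ≤ l₃ P + β₀ * l₁ P := by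
    intro w hw
    by_contra hgt
    push Not at hgt
    obtain ⟨β, hβS, hβlt⟩ := hsmall ((l₃ w + β₀ * l₁ w - (l₃ P + β₀ * l₁ P)) / (2 * C))
      (div_pos (by linarith) (by linarith))
    obtain ⟨R, hR, hfR, hRmax⟩ := hPβ β hβS
    have a1 := hRmax w hw
    have a2 := hcon' R hR hfR
    rw [map_sub, map_sub] at a2
    have a3 := abs_le.1 (hCb R hR)
    have a4 := abs_le.1 (hCb w hw)
    have a5 := hβle β hβS
    have a6 : (β - β₀) * (2 * C) < l₃ w + β₀ * l₁ w - (l₃ P + β₀ * l₁ P) := by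
      rw [← lt_div_iff₀ (by linarith)]
      linarith
    have a7 : (β - β₀) * (l₁ R - l₁ w) ≤ (β - β₀) * (2 * C) :=
      mul_le_mul_of_nonneg_left (by linarith [a3.2, a4.1]) (by linarith)
    nlinarith
  obtain ⟨y, hy, hfy, hNy⟩ := h3
  have hPy : l₁ P < l₁ y := by
    refine lt_of_le_of_ne (hPl y hy) fun heq => ?_
    refine hα l₁ h1 ⟨y, hy, hfy, neg_ne_zero.2 hl1, fun z hz => ?_⟩
    simp only [LinearMap.neg_apply]
    have := hPl z hz
    linarith
  have b1 := hmax y hy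
  have b2 := hNy.2 P hP
  rcases lt_or_eq_of_le hβ0 with hpos | hzero
  · have b3 : β₀ * l₁ y ≤ β₀ * l₁ P := by linarith
    have b4 := le_of_mul_le_mul_left b3 hpos
    linarith
  · have hPmax : l₃ P = l₃ y := by
      rw [← hzero] at b1
      linarith
    obtain ⟨c, k, u, v, hc, hd⟩ := exists_dual l₁ hl1
    have hdec : ∀ x, l₃ x = l₃ u * (c * l₁ x) + l₃ v * k x := by
      intro x
      conv_lhs => rw [← hd.dec x]
      rw [map_add, map_smul, map_smul, smul_eq_mul, smul_eq_mul, LinearMap.smul_apply, smul_eq_mul]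
      ring
    have hq : l₃ v ≠ 0 := by
      intro hq0
      obtain ⟨κ, hκe⟩ : ∃ κ : ℝ, l₃ = κ • l₁ := by
        refine ⟨l₃ u * c, LinearMap.ext fun x => ?_⟩
        rw [hdec x, hq0, LinearMap.smul_apply, smul_eq_mul]
        ring
      rcases lt_trichotomy κ 0 with hκ | hκ | hκ
      · apply hα l₁ h1
        have e3 : -l₁ = (-κ)⁻¹ • l₃ := by
          rw [hκe, smul_smul, inv_neg, neg_mul, inv_mul_cancel₀ hκ.ne, neg_one_smul]
        rw [e3]
        exact h3'.smul (inv_pos.2 (by linarith))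
      · apply hNy.1
        rw [hκe, hκ, zero_smul]
      · apply hα l₁ h1
        have e3 : -l₁ = (1 + κ)⁻¹ • l₂ := by
          have e4 : l₂ = (1 + κ) • (-l₁) := by
            rw [e2, hκe, add_smul, one_smul, smul_neg]
            abel
          rw [e4, smul_smul, inv_mul_cancel₀ (by linarith), one_smul]
        rw [e3]
        exact h2.smul (inv_pos.2 (by linarith))
    have husc := H.fusc y hy m (show f y < m by rw [hfy]; exact hm0)
    rw [eventually_nhdsWithin_iff, Metric.eventually_nhds_iff] at husc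
    obtain ⟨r, hr, hr'⟩ := husc
    have hqa : 0 < |l₃ v| := abs_pos.2 hq
    obtain ⟨β, hβS, hβlt⟩ := hsmall (r * |l₃ v| / (2 * C * (‖v‖ + 1))) (by positivity)
    rw [← hzero, zero_add] at hβlt
    obtain ⟨R, hR, hfR, hRmax⟩ := hPβ β hβS
    have hβpos : 0 < β := hβS.1
    have c1 := hRmax y hy
    have c2 : l₃ R ≤ l₃ y := hNy.2 R hR
    have c3 : l₁ y ≤ l₁ R := by
      have : β * l₁ y ≤ β * l₁ R := by linarith
      exact le_of_mul_le_mul_left this hβpos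
    have hden : 0 < l₁ R - l₁ P := by linarith
    obtain ⟨s, hs⟩ : ∃ s, s = (l₁ y - l₁ P) / (l₁ R - l₁ P) := ⟨_, rfl⟩
    have hse : s * (l₁ R - l₁ P) = l₁ y - l₁ P := by rw [hs, div_mul_cancel₀ _ hden.ne']
    have hs0 : 0 < s := by rw [hs]; exact div_pos (by linarith) hden
    have hs1 : s ≤ 1 := by rw [hs, div_le_one hden]; linarith
    have hXB : (1 - s) • P + s • R ∈ B := H.conv hP hR (by linarith) hs0.le (by ring)
    have hfX := H.fconc.2 hP hR (show 0 ≤ 1 - s by linarith) hs0.le (by ring)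
    obtain ⟨X, hX⟩ : ∃ X, X = (1 - s) • P + s • R := ⟨_, rfl⟩
    rw [← hX] at hXB hfX
    have hfX' : m ≤ f X := by
      rw [hPm, hfR, smul_eq_mul, smul_eq_mul] at hfX
      linarith
    have hX1 : l₁ X = l₁ y := by
      rw [hX, map_add, map_smul, map_smul, smul_eq_mul, smul_eq_mul]
      linarith
    have hX3 : l₃ X - l₃ y = s * (l₃ R - l₃ y) := by
      rw [hX, map_add, map_smul, map_smul, smul_eq_mul, smul_eq_mul, hPmax]
      ring
    have d3 := abs_le.1 (hCb R hR)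
    have d4 := abs_le.1 (hCb y hy)
    have d5 : β * (l₁ R - l₁ y) ≤ β * (2 * C) :=
      mul_le_mul_of_nonneg_left (by linarith [d3.2, d4.1]) hβpos.le
    have d6 : |l₃ X - l₃ y| ≤ β * (2 * C) := by
      rw [hX3, abs_mul, abs_of_pos hs0, abs_of_nonpos (by linarith)]
      have : s * -(l₃ R - l₃ y) ≤ 1 * -(l₃ R - l₃ y) :=
        mul_le_mul_of_nonneg_right hs1 (by linarith)
      linarith
    have hk : l₃ v * (k X - k y) = l₃ X - l₃ y := by
      rw [hdec X, hdec y, hX1]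
      ring
    have hXy : X - y = (k X - k y) • v := by
      apply hd.ext
      · rw [map_smul, hd.lv, smul_zero, LinearMap.smul_apply, map_sub, hX1, sub_self, smul_zero]
      · rw [map_smul, hd.kv, map_sub, smul_eq_mul, mul_one]
    have hka : |l₃ v| * |k X - k y| ≤ β * (2 * C) := by
      rw [← abs_mul, hk]
      exact d6
    have hv : 0 ≤ ‖v‖ := norm_nonneg v
    have hβ' : β * (2 * C * (‖v‖ + 1)) < r * |l₃ v| := by
      rwa [lt_div_iff₀ (by positivity)] at hβlt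
    have hdist : dist X y < r := by
      rw [dist_eq_norm, hXy, norm_smul, Real.norm_eq_abs]
      have g1 : |l₃ v| * |k X - k y| * (‖v‖ + 1) ≤ β * (2 * C) * (‖v‖ + 1) :=
        mul_le_mul_of_nonneg_right hka (by linarith)
      have g2 : |l₃ v| * (|k X - k y| * (‖v‖ + 1)) < |l₃ v| * r := by nlinarith
      have g3 := lt_of_mul_lt_mul_left g2 hqa.le
      nlinarith [abs_nonneg (k X - k y)]
    exact absurd (hr' hdist hXB) (not_lt.2 hfX')

end Pool.Agent.Lib.MP_5e7226_co.MM
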