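import Pool.Agent.Lib.MP_5e7226_co.MM.Defs

/-! Row M7. All normals at a rim point are in the same of the three open cones. -/

set_option autoImplicit false

open Set Filter Topology

namespace Pool.Agent.Lib.MP_5e7226_co.MM

open PS CM

variable {B : Set E} {f : E → ℝ}

theorem NN.add' {x : E} {n n' : E →ₗ[ℝ] ℝ} (h : NN B x n) (h' : NN B x n')
    (hne : n + n' ≠ 0) : NN B x (n + n') :=
  ⟨hne, fun z hz => by
    simp only [LinearMap.add_apply]
    exact add_le_add (h.2 z hz) (h'.2 z hz)⟩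

theorem negs (c : ℝ) (l : E →ₗ[ℝ] ℝ) : -(c • l) = (-c) • l := by module

/-- two independent functionals span the dual plane -/
theorem comb2 {l₁ l₂ : E →ₗ[ℝ] ℝ} (h1 : l₁ ≠ 0) (hind : ∀ κ : ℝ, l₂ ≠ κ • l₁)
    (n : E →ₗ[ℝ] ℝ) : ∃ a b : ℝ, n = a • l₁ + b • l₂ := by
  obtain ⟨c, k, u, v, hc, hd⟩ := exists_dual l₁ h1
  have hl1v : l₁ v = 0 := by
    have := hd.lv
    rw [LinearMap.smul_apply, smul_eq_mul] at this
    exact (mul_eq_zero.1 this).resolve_left hc.ne'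
  have hv : v ≠ 0 := by
    intro h0
    have := hd.kv
    rw [h0, map_zero] at this
    exact zero_ne_one this
  have hl2v : l₂ v ≠ 0 := by
    intro h0
    obtain ⟨κ, hκ⟩ := prop_of_common_zero h1 hv hl1v h0
    exact hind κ (LinearMap.ext fun x => by
      rw [LinearMap.smul_apply, smul_eq_mul]; exact hκ x)
  have h3 : (n - (n v / l₂ v) • l₂) v = 0 := by
    rw [LinearMap.sub_apply, LinearMap.smul_apply, smul_eq_mul, div_mul_cancel₀ _ hl2v, sub_self]
  obtain ⟨κ, hκ⟩ := prop_of_common_zero h1 hv hl1v h3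
  refine ⟨κ, n v / l₂ v, LinearMap.ext fun x => ?_⟩
  have h4 := hκ x
  rw [LinearMap.sub_apply, LinearMap.smul_apply, smul_eq_mul] at h4
  rw [LinearMap.add_apply, LinearMap.smul_apply, LinearMap.smul_apply, smul_eq_mul, smul_eq_mul]
  linarith

theorem incompat (hα : ∀ n, TH B f n → ¬ TH B f (-n)) {l₁ l₂ l₃ : E →ₗ[ℝ] ℝ}
    (h1 : TH B f l₁) (h2 : TH B f l₂) (hsum : l₁ + l₂ + l₃ = 0) {z : E}
    (hz : z ∈ B) (hfz : f z = 0) {n n' : E →ₗ[ℝ] ℝ} (hn : NN B z n) (hn' : NN B z n')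
    {α β α' β' : ℝ} (ha : 0 < α) (hb : 0 < β) (_ha' : 0 < α') (hb' : 0 < β')
    (e : n = -(α • l₁ + β • l₂)) (e' : n' = -(α' • l₂ + β' • l₃)) : False := by
  have hl3 : l₃ = -l₁ - l₂ := by
    have : l₃ = (l₁ + l₂ + l₃) - l₁ - l₂ := by abel
    rw [this, hsum]; abel
  set c : ℝ := α * (β' - α') - β * β' with hc
  have hcomb : β' • n + α • n' = c • l₂ := by
    rw [e, e', hl3, hc]
    module
  have T : ∀ m, NN B z m → TH B f m := fun m hm => ⟨z, hz, hfz, hm⟩
  rcases lt_trichotomy c 0 with h | h | h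
  · have h3 : β' • n + α • n' ≠ 0 := by
      rw [hcomb]
      obtain ⟨_, _, _, hh⟩ := h2
      exact smul_ne_zero h.ne hh.1
    have h4 := T _ ((hn.smul hb').add' (hn'.smul ha) h3)
    rw [hcomb] at h4
    apply hα _ h4
    have h5 := h2.smul (c := -c) (by linarith)
    rwa [negs]
  · rw [h, zero_smul] at hcomb
    have h3 : -(α • n') = β' • n := by
      rw [eq_comm, ← sub_eq_zero, sub_neg_eq_add, hcomb]
    apply hα _ (T _ (hn'.smul ha))
    rw [h3]
    exact T _ (hn.smul hb')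
  · have h3 : β' • n + α • n' ≠ 0 := by
      rw [hcomb]
      obtain ⟨_, _, _, hh⟩ := h2
      exact smul_ne_zero h.ne' hh.1
    have h4 := (hn.smul hb').add' (hn'.smul ha) h3
    rw [hcomb] at h4
    have h5 := h4.smul (c := β / c) (div_pos hb h)
    rw [smul_smul, div_mul_cancel₀ _ h.ne'] at h5
    have h6 : n + β • l₂ = -(α • l₁) := by rw [e]; abel
    have h7 : n + β • l₂ ≠ 0 := by
      rw [h6, neg_ne_zero]
      obtain ⟨_, _, _, hh⟩ := h1
      exact smul_ne_zero ha.ne' hh.1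
    have h8 := T _ (hn.add' h5 h7)
    rw [h6] at h8
    exact hα _ (h1.smul ha) h8

theorem classify (hα : ∀ n, TH B f n → ¬ TH B f (-n)) {l₁ l₂ l₃ : E →ₗ[ℝ] ℝ}
    (h1 : TH B f l₁) (h2 : TH B f l₂) (h3 : TH B f l₃) (hsum : l₁ + l₂ + l₃ = 0)
    {n : E →ₗ[ℝ] ℝ} (hn : TH B f n) :
    (∃ α β : ℝ, 0 < α ∧ 0 < β ∧ n = -(α • l₁ + β • l₂)) ∨
      (∃ α β : ℝ, 0 < α ∧ 0 < β ∧ n = -(α • l₂ + β • l₃)) ∨
      (∃ α β : ℝ, 0 < α ∧ 0 < β ∧ n = -(α • l₃ + β • l₁)) := by
  have hl3 : l₃ = -l₁ - l₂ := by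
    have : l₃ = (l₁ + l₂ + l₃) - l₁ - l₂ := by abel
    rw [this, hsum]; abel
  have ne0 : ∀ m, TH B f m → m ≠ 0 := fun m hm => by
    obtain ⟨_, _, _, hh⟩ := hm
    exact hh.1
  have hind : ∀ κ : ℝ, l₂ ≠ κ • l₁ := by
    intro κ h
    rcases lt_trichotomy κ 0 with hk | hk | hk
    · apply hα _ h2
      rw [h, negs]
      exact h1.smul (by linarith)
    · rw [hk, zero_smul] at h
      exact ne0 _ h2 h
    · have h4 : -((1 + κ) • l₁) = l₃ := by rw [hl3, h]; module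
      apply hα _ (h1.smul (c := 1 + κ) (by linarith))
      rw [h4]
      exact h3
  obtain ⟨a, b, e⟩ := comb2 (ne0 _ h1) hind n
  -- multiples of `-l₁`, `-l₂`, `-l₃` are excluded
  have x1 : ∀ c : ℝ, c < 0 → n ≠ c • l₁ := fun c hc h => by
    apply hα _ hn
    rw [h, negs]
    exact h1.smul (by linarith)
  have x2 : ∀ c : ℝ, c < 0 → n ≠ c • l₂ := fun c hc h => by
    apply hα _ hn
    rw [h, negs]
    exact h2.smul (by linarith)
  have x3 : ∀ c : ℝ, c < 0 → n ≠ c • l₃ := fun c hc h => by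
    apply hα _ hn
    rw [h, negs]
    exact h3.smul (by linarith)
  rcases lt_trichotomy a 0 with ha | ha | ha
  · rcases lt_trichotomy b 0 with hb | hb | hb
    · left
      exact ⟨-a, -b, by linarith, by linarith, by rw [e]; module⟩
    · exact absurd (by rw [e, hb, zero_smul, add_zero]) (x1 a ha)
    · right; right
      exact ⟨b, b - a, hb, by linarith, by rw [e, hl3]; module⟩
  · rcases lt_trichotomy b 0 with hb | hb | hb
    · exact absurd (by rw [e, ha, zero_smul, zero_add]) (x2 b hb)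
    · exact absurd (by rw [e, ha, hb, zero_smul, zero_smul, add_zero]) (ne0 _ hn)
    · right; right
      exact ⟨b, b - a, hb, by linarith, by rw [e, hl3]; module⟩
  · rcases lt_trichotomy b a with hb | hb | hb
    · right; left
      exact ⟨a - b, a, by linarith, ha, by rw [e, hl3]; module⟩
    · exact absurd (by rw [e, hb, hl3]; module) (x3 (-a) (by linarith))
    · right; right
      exact ⟨b, b - a, by linarith, by linarith, by rw [e, hl3]; module⟩

/-- M7. All normals at a rim point are in the same of the three open cones. -/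
theorem same_cone (hα : ∀ n, TH B f n → ¬ TH B f (-n)) {l₁ l₂ l₃ : E →ₗ[ℝ] ℝ}
    (h1 : TH B f l₁) (h2 : TH B f l₂) (h3 : TH B f l₃) (hsum : l₁ + l₂ + l₃ = 0) {z : E}
    (hz : z ∈ B) (hfz : f z = 0) :
    (∀ n, NN B z n → ∃ α β : ℝ, 0 < α ∧ 0 < β ∧ n = -(α • l₁ + β • l₂)) ∨
      (∀ n, NN B z n → ∃ α β : ℝ, 0 < α ∧ 0 < β ∧ n = -(α • l₂ + β • l₃)) ∨
      (∀ n, NN B z n → ∃ α β : ℝ, 0 < α ∧ 0 < β ∧ n = -(α • l₃ + β • l₁)) := by
  have hs2 : l₂ + l₃ + l₁ = 0 := by rw [← hsum]; abel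
  have hs3 : l₃ + l₁ + l₂ = 0 := by rw [← hsum]; abel
  by_cases hex : ∃ n₀, NN B z n₀
  · obtain ⟨n₀, hn₀⟩ := hex
    rcases classify hα h1 h2 h3 hsum ⟨z, hz, hfz, hn₀⟩ with ⟨a, b, ha, hb, e⟩ |
        ⟨a, b, ha, hb, e⟩ | ⟨a, b, ha, hb, e⟩
    · left
      intro n hn
      rcases classify hα h1 h2 h3 hsum ⟨z, hz, hfz, hn⟩ with h | ⟨a', b', ha', hb', e'⟩ |
        ⟨a', b', ha', hb', e'⟩
      · exact h
      · exact absurd (incompat hα h1 h2 hsum hz hfz hn₀ hn ha hb ha' hb' e e') id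
      · exact absurd (incompat hα h3 h1 hs3 hz hfz hn hn₀ ha' hb' ha hb e' e) id
    · right; left
      intro n hn
      rcases classify hα h1 h2 h3 hsum ⟨z, hz, hfz, hn⟩ with ⟨a', b', ha', hb', e'⟩ | h |
        ⟨a', b', ha', hb', e'⟩
      · exact absurd (incompat hα h1 h2 hsum hz hfz hn hn₀ ha' hb' ha hb e' e) id
      · exact h
      · exact absurd (incompat hα h2 h3 hs2 hz hfz hn₀ hn ha hb ha' hb' e e') id
    · right; right
      intro n hn
      rcases classify hα h1 h2 h3 hsum ⟨z, hz, hfz, hn⟩ with ⟨a', b', ha', hb', e'⟩ |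
        ⟨a', b', ha', hb', e'⟩ | h
      · exact absurd (incompat hα h3 h1 hs3 hz hfz hn₀ hn ha hb ha' hb' e e') id
      · exact absurd (incompat hα h2 h3 hs2 hz hfz hn hn₀ ha' hb' ha hb e' e) id
      · exact h
  · push Not at hex
    left
    intro n hn
    exact absurd hn (hex n)

end Pool.Agent.Lib.MP_5e7226_co.MM
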