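import Pool.Agent.Lib.MP_5e7226_co.MM.V56
import Pool.Agent.Lib.MP_5e7226_co.MM.SameCone
import Pool.Agent.Lib.MP_5e7226_co.MM.ExQ

/-! Row M9: Lemma V. -/

set_option autoImplicit false

open Set Filter Topology

namespace Pool.Agent.Lib.MP_5e7226_co.MM

open PS CM

variable {B : Set E} {f : E → ℝ}

/-- no nonzero functional is a multiple of another one -/
theorem b1_indep (hα : ∀ n, TH B f n → ¬ TH B f (-n)) {l₁ l₂ l₃ : E →ₗ[ℝ] ℝ}
    (h1 : TH B f l₁) (h2 : TH B f l₂) (h3 : TH B f l₃) (hsum : l₁ + l₂ + l₃ = 0)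
    {κ : ℝ} (hκ : ∀ x, l₂ x = κ * l₃ x) : False := by
  have e2 : l₂ = κ • l₃ := by
    apply LinearMap.ext
    intro x
    rw [hκ x]
    rfl
  have n2 : l₂ ≠ 0 := by
    obtain ⟨x, _, _, hn⟩ := h2
    exact hn.1
  rcases lt_trichotomy κ 0 with hk | hk | hk
  · apply hα _ h3
    have := h2.smul (c := -κ⁻¹) (by rw [neg_pos]; exact inv_lt_zero.2 hk)
    have e : (-κ⁻¹) • l₂ = -l₃ := by
      rw [e2, smul_smul, neg_mul, inv_mul_cancel₀ hk.ne, neg_smul, one_smul]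
    rwa [e] at this
  · apply n2
    rw [e2, hk, zero_smul]
  · apply hα _ h3
    have := h1.smul (c := (1 + κ)⁻¹) (by positivity)
    have e1 : l₁ = -((1 + κ) • l₃) := by
      have : l₁ = -(l₂ + l₃) := by
        rw [eq_neg_iff_add_eq_zero, ← add_assoc]; exact hsum
      rw [this, e2, add_smul, one_smul, add_comm]
    have e : (1 + κ)⁻¹ • l₁ = -l₃ := by
      rw [e1, smul_neg, smul_smul, inv_mul_cancel₀ (by positivity), one_smul]
    rwa [e] at this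

/-- the horizontal direction -/
theorem b1_dir (hα : ∀ n, TH B f n → ¬ TH B f (-n)) {l₁ l₂ l₃ : E →ₗ[ℝ] ℝ}
    (h1 : TH B f l₁) (h2 : TH B f l₂) (h3 : TH B f l₃) (hsum : l₁ + l₂ + l₃ = 0) :
    ∃ b : E, l₂ b = 1 ∧ l₃ b = 1 := by
  have n3 : l₃ ≠ 0 := by
    obtain ⟨x, _, _, hn⟩ := h3
    exact hn.1
  obtain ⟨c, k, u, v, hc, hd⟩ := exists_dual l₃ n3
  have hv0 : v ≠ 0 := by
    rintro rfl
    have := hd.kv
    simp at this
  have h3v : l₃ v = 0 := by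
    have := hd.lv
    rw [LinearMap.smul_apply, smul_eq_mul] at this
    exact (mul_eq_zero.1 this).resolve_left hc.ne'
  have h3u : c * l₃ u = 1 := by
    have := hd.lu
    rwa [LinearMap.smul_apply, smul_eq_mul] at this
  have h2v : l₂ v ≠ 0 := by
    intro h0
    obtain ⟨κ, hκ⟩ := prop_of_common_zero n3 hv0 h3v h0
    exact b1_indep hα h1 h2 h3 hsum hκ
  refine ⟨c • u + ((1 - c * l₂ u) / l₂ v) • v, ?_, ?_⟩
  · rw [map_add, map_smul, map_smul, smul_eq_mul, smul_eq_mul, div_mul_cancel₀ _ h2v]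
    ring
  · rw [map_add, map_smul, map_smul, smul_eq_mul, smul_eq_mul, h3v, mul_zero, add_zero, h3u]

/-- two of the functionals are not minimal at the same point of `PSet` -/
theorem b1_ne (hA : ∀ P, PSet B f f P → ¬ Rim f f P)
    (hα : ∀ n, TH B f n → ¬ TH B f (-n)) {l₁ l₂ l₃ : E →ₗ[ℝ] ℝ}
    (h1 : TH B f l₁) (h2 : TH B f l₂) (h3 : TH B f l₃) (hsum : l₁ + l₂ + l₃ = 0) {P Q : E}
    (hP : PSet B f f P) (hP2 : ∀ x ∈ B, l₂ P ≤ l₂ x) (hQ3 : ∀ x ∈ B, l₃ Q ≤ l₃ x) : P ≠ Q := by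
  rintro rfl
  obtain ⟨y, hy, hfy, _, hmax⟩ := h1
  have hs : ∀ x, l₁ x = -(l₂ x) - l₃ x := by
    intro x
    have := congrArg (fun g : E →ₗ[ℝ] ℝ => g x) hsum
    simp only [LinearMap.add_apply, LinearMap.zero_apply] at this
    linarith
  have a1 := hmax P hP.mem
  have a2 := hP2 y hy
  have a3 := hQ3 y hy
  rw [hs, hs] at a1
  have b2 : l₂ y = l₂ P := by linarith
  have b3 : l₃ y = l₃ P := by linarith
  have hyP : y = P := by
    by_contra hne
    have hw : y - P ≠ 0 := sub_ne_zero.2 hne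
    have c2 : l₂ (y - P) = 0 := by rw [map_sub, b2, sub_self]
    have c3 : l₃ (y - P) = 0 := by rw [map_sub, b3, sub_self]
    have n3 : l₃ ≠ 0 := by
      obtain ⟨x, _, _, hn⟩ := h3
      exact hn.1
    obtain ⟨κ, hκ⟩ := prop_of_common_zero n3 hw c3 c2
    exact b1_indep hα ⟨y, hy, hfy, by assumption, hmax⟩ h2 h3 hsum hκ
  subst hyP
  exact hA _ hP ⟨hfy, hfy⟩

/-- an interior point at which `f` is maximal -/
theorem b1_int (H : PP B f f) (hA : ∀ P, PSet B f f P → ¬ Rim f f P)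
    (hM : ∀ P, PSet B f f P → ∀ x ∈ B, f x ≤ f P) (hα : ∀ n, TH B f n → ¬ TH B f (-n))
    {l₁ l₂ l₃ : E →ₗ[ℝ] ℝ} (h1 : TH B f l₁) (h2 : TH B f l₂) (h3 : TH B f l₃)
    (hsum : l₁ + l₂ + l₃ = 0) : ∃ w ∈ interior B, ∀ x ∈ B, f x ≤ f w := by
  have hF : ∀ n, TH B f n → ∃ P, PSet B f f P ∧ P ∈ B ∧ ∀ x ∈ B, n P ≤ n x := by
    rintro n ⟨y, hy, hfy, hn0, hn⟩
    exact exists_PSet H.toPF hy ⟨hfy, hfy⟩ hn0 hn
  obtain ⟨P₁, p1, m1, e1⟩ := hF _ h1
  obtain ⟨P₂, p2, m2, e2⟩ := hF _ h2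
  obtain ⟨P₃, p3, m3, e3⟩ := hF _ h3
  have d23 : P₂ ≠ P₃ := b1_ne hA hα h1 h2 h3 hsum p2 e2 e3
  have d12 : P₁ ≠ P₂ := b1_ne hA hα h3 h1 h2 (by rw [← hsum]; abel) p1 e1 e2
  have d31 : P₃ ≠ P₁ := b1_ne hA hα h2 h3 h1 (by rw [← hsum]; abel) p3 e3 e1
  obtain ⟨α, β, hd⟩ := three_dual m1 m2 m3 d12.symm d31 d23.symm
    (fun a ha b hb t ht0 ht1 he => p1.extreme ha hb ht0 ht1 he)
    (fun a ha b hb t ht0 ht1 he => p2.extreme ha hb ht0 ht1 he)
    (fun a ha b hb t ht0 ht1 he => p3.extreme ha hb ht0 ht1 he)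
  have f2 : f P₂ = f P₁ := le_antisymm (hM _ p1 _ m2) (hM _ p2 _ m1)
  have f3 : f P₃ = f P₁ := le_antisymm (hM _ p1 _ m3) (hM _ p3 _ m1)
  -- the centroid
  set q : E := (1 / 2 : ℝ) • P₁ + (1 / 2 : ℝ) • P₂ with hq
  have hqB : q ∈ B := H.conv m1 m2 (by norm_num) (by norm_num) (by norm_num)
  have hfq : f P₁ ≤ f q := by
    have := H.fconc.2 m1 m2 (show (0 : ℝ) ≤ 1 / 2 by norm_num) (show (0 : ℝ) ≤ 1 / 2 by norm_num)
      (by norm_num)
    rw [← hq, f2] at this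
    simp only [smul_eq_mul] at this
    linarith
  set w : E := (1 / 2 : ℝ) • q + (1 / 2 : ℝ) • P₃ with hw
  have hwB : w ∈ B := H.conv hqB m3 (by norm_num) (by norm_num) (by norm_num)
  have hfw : f P₁ ≤ f w := by
    have := H.fconc.2 hqB m3 (show (0 : ℝ) ≤ 1 / 2 by norm_num) (show (0 : ℝ) ≤ 1 / 2 by norm_num)
      (by norm_num)
    rw [← hw, f3] at this
    simp only [smul_eq_mul] at this
    linarith
  have hin : IN B w 0 := by
    apply IN_of_forall H.toPF hwB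
    intro n hn0 hn
    exfalso
    have a1 := hn _ m1
    have a2 := hn _ m2
    have a3 := hn _ m3
    have a4 : n w = 1 / 4 * n P₁ + 1 / 4 * n P₂ + 1 / 2 * n P₃ := by
      rw [hw, hq]
      simp only [map_add, map_smul, smul_eq_mul]
      ring
    have b2 : n (P₂ - P₁) = 0 := by rw [map_sub]; linarith
    have b3 : n (P₃ - P₁) = 0 := by rw [map_sub]; linarith
    apply hn0
    apply LinearMap.ext
    intro x
    rw [← hd.dec x, map_add, map_smul, map_smul, b2, b3]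
    simp
  obtain ⟨t, _, hint⟩ := hin
  rw [smul_zero, add_zero] at hint
  exact ⟨w, hint, fun x hx => (hM _ p1 x hx).trans hfw⟩

/-- moving a point at which `f` is maximal a little into the interior -/
theorem b1_move (H : PP B f f) {Q w : E} (hQ : Q ∈ B) (hw : w ∈ interior B)
    (hfQ : ∀ x ∈ B, f x ≤ f Q) (hfw : ∀ x ∈ B, f x ≤ f w) {g : E →ₗ[ℝ] ℝ} {P : E}
    (hg : 0 < g (Q - P)) : ∃ W ∈ interior B, (∀ x ∈ B, f x ≤ f W) ∧ 0 < g (W - P) := by
  have hQw : f Q = f w := le_antisymm (hfw Q hQ) (hfQ w (interior_subset hw))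
  set η : ℝ := min (1 / 2) (g (Q - P) / (2 * (|g (w - Q)| + 1))) with hη
  have hden : 0 < 2 * (|g (w - Q)| + 1) := by positivity
  have hη0 : 0 < η := lt_min (by norm_num) (div_pos hg hden)
  have hη1 : η ≤ 1 / 2 := min_le_left _ _
  have hη2 : η * (2 * (|g (w - Q)| + 1)) ≤ g (Q - P) := by
    have := min_le_right (1 / 2 : ℝ) (g (Q - P) / (2 * (|g (w - Q)| + 1)))
    rw [← hη] at this
    rwa [le_div_iff₀ hden] at this
  refine ⟨(1 - η) • Q + η • w, H.seg_int hw hQ hη0 (by linarith), fun x hx => ?_, ?_⟩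
  · have := H.fconc.2 hQ (interior_subset hw) (show 0 ≤ 1 - η by linarith) hη0.le (by ring)
    simp only [smul_eq_mul] at this
    have h2 := hfQ x hx
    rw [← hQw] at this
    linarith
  · have e : g ((1 - η) • Q + η • w - P) = g (Q - P) + η * g (w - Q) := by
      simp only [map_sub, map_add, map_smul, smul_eq_mul]; ring
    rw [e]
    have h1 := neg_abs_le (g (w - Q))
    have h2 := abs_nonneg (g (w - Q))
    nlinarith

/-- M9. Lemma V. -/
theorem beta1 (H : PP B f f) (hA : ∀ P, PSet B f f P → ¬ Rim f f P)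
    (hM : ∀ P, PSet B f f P → ∀ x ∈ B, f x ≤ f P) (hα : ∀ n, TH B f n → ¬ TH B f (-n))
    {l₁ l₂ l₃ : E →ₗ[ℝ] ℝ} (h1 : TH B f l₁) (h2 : TH B f l₂) (h3 : TH B f l₃)
    (hsum : l₁ + l₂ + l₃ = 0) : Good7 B f := by
  have hF : ∀ n, TH B f n → ∃ P, PSet B f f P ∧ P ∈ B ∧ ∀ x ∈ B, n P ≤ n x := by
    rintro n ⟨y, hy, hfy, hn0, hn⟩
    exact exists_PSet H.toPF hy ⟨hfy, hfy⟩ hn0 hn
  obtain ⟨P, hPS, hP, hPl⟩ := hF _ h1
  have hPmax := hM P hPS
  have hPpos : 0 < f P := by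
    obtain ⟨c, hc⟩ := H.int
    exact (H.fpos c hc).trans_le (hPmax c (interior_subset hc))
  have hF' : ∀ n, TH B f n → ∃ Q ∈ B, f Q = f P ∧ ∀ x ∈ B, n Q ≤ n x := by
    intro n hn
    obtain ⟨Q, q1, q2, q3⟩ := hF n hn
    exact ⟨Q, q2, le_antisymm (hPmax Q q2) (hM Q q1 P hP), q3⟩
  obtain ⟨w, hw, hfw⟩ := b1_int H hA hM hα h1 h2 h3 hsum
  obtain ⟨Q, hQ, hfQ, β₀, hβ0, hβ, hQpos⟩ := exists_Q H hPmax hPpos hF' hα h1 h2 h3 hsum hP rfl hPl
  obtain ⟨Q', hQ', hfQ', γ₀, hγ0, hγ, hQpos'⟩ := exists_Q H hPmax hPpos hF' hα h1 h3 h2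
    (by rw [← hsum]; abel) hP rfl hPl
  obtain ⟨W, hW, hfW, hWg⟩ := b1_move H hQ hw (fun x hx => by rw [hfQ]; exact hPmax x hx) hfw
    (g := l₃ + β₀ • l₁) (P := P) (by
      simpa only [LinearMap.add_apply, LinearMap.smul_apply, smul_eq_mul] using hQpos)
  obtain ⟨W', hW', hfW', hWg'⟩ := b1_move H hQ' hw (fun x hx => by rw [hfQ']; exact hPmax x hx) hfw
    (g := l₂ + γ₀ • l₁) (P := P) (by
      simpa only [LinearMap.add_apply, LinearMap.smul_apply, smul_eq_mul] using hQpos')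
  simp only [LinearMap.add_apply, LinearMap.smul_apply, smul_eq_mul] at hWg hWg'
  have hW1 : 0 ≤ l₁ (W - P) := by rw [map_sub]; linarith [hPl W (interior_subset hW)]
  have hW1' : 0 ≤ l₁ (W' - P) := by rw [map_sub]; linarith [hPl W' (interior_subset hW')]
  obtain ⟨b, hb2, hb3⟩ := b1_dir hα h1 h2 h3 hsum
  obtain ⟨y, l, k, u, v, O, hr⟩ := hPS
  refine scheme' H O hr.1 hW (hfW P hP) hW' (hfW' P hP) (b := b) ?_
  intro z hz hfz
  rcases same_cone hα h1 h2 h3 hsum hz hfz with hc | hc | hc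
  · -- pair (1, 2): `W'`
    right; left
    refine (IN_iff H.toPF hz).2 fun n hn => ?_
    obtain ⟨α, β, ha, hb, rfl⟩ := hc n hn
    have hth : TH B f (-(l₂ + (α / β) • l₁)) := by
      have h5 : TH B f (-(α • l₁ + β • l₂)) := ⟨z, hz, hfz, hn⟩
      have := h5.smul (inv_pos.2 hb)
      have e : β⁻¹ • -(α • l₁ + β • l₂) = -(l₂ + (α / β) • l₁) := by
        rw [smul_neg, smul_add, smul_smul, smul_smul, inv_mul_cancel₀ hb.ne', one_smul, add_comm,
          div_eq_inv_mul]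
      rwa [e] at this
    have h6 := hγ _ (div_pos ha hb) hth
    rw [le_div_iff₀ hb] at h6
    simp only [LinearMap.neg_apply, LinearMap.add_apply, LinearMap.smul_apply, smul_eq_mul]
    have h7 := mul_le_mul_of_nonneg_right h6 hW1'
    have h8 := mul_pos hb hWg'
    nlinarith
  · -- pair (2, 3): `b`
    right; right
    refine (IN_iff H.toPF hz).2 fun n hn => ?_
    obtain ⟨α, β, ha, hb, rfl⟩ := hc n hn
    simp only [LinearMap.neg_apply, LinearMap.add_apply, LinearMap.smul_apply, smul_eq_mul, hb2,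
      hb3]
    linarith
  · -- pair (3, 1): `W`
    left
    refine (IN_iff H.toPF hz).2 fun n hn => ?_
    obtain ⟨α, β, ha, hb, rfl⟩ := hc n hn
    have hth : TH B f (-(l₃ + (β / α) • l₁)) := by
      have h5 : TH B f (-(α • l₃ + β • l₁)) := ⟨z, hz, hfz, hn⟩
      have := h5.smul (inv_pos.2 ha)
      have e : α⁻¹ • -(α • l₃ + β • l₁) = -(l₃ + (β / α) • l₁) := by
        rw [smul_neg, smul_add, smul_smul, smul_smul, inv_mul_cancel₀ ha.ne', one_smul,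
          div_eq_inv_mul]
      rwa [e] at this
    have h6 := hβ _ (div_pos hb ha) hth
    rw [le_div_iff₀ ha] at h6
    simp only [LinearMap.neg_apply, LinearMap.add_apply, LinearMap.smul_apply, smul_eq_mul]
    have h7 := mul_le_mul_of_nonneg_right h6 hW1
    have h8 := mul_pos ha hWg
    nlinarith

end Pool.Agent.Lib.MP_5e7226_co.MM
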