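import Pool.Agent.Lib.MP_5e7226_co.MM.Defs

/-! Row M4 (`beta2`): reduction of the limit case to Lemma U. -/

set_option autoImplicit false

open Set Filter Topology

namespace Pool.Agent.Lib.MP_5e7226_co.MM

open PS CM

variable {B : Set E} {f : E → ℝ}

/-- M4 -/
theorem beta2 (H : PP B f f) (_hA : ∀ P, PSet B f f P → ¬ Rim f f P)
    (hM : ∀ P, PSet B f f P → ∀ x ∈ B, f x ≤ f P) (_hα : ∀ n, TH B f n → ¬ TH B f (-n))
    {l k : E →ₗ[ℝ] ℝ} {u v : E} (hl : TH B f l) (hd : Dual l k u v)
    (_hv : ∀ n, TH B f n → 0 ≤ n v)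
    (hp : ∀ ρ : ℝ, 0 < ρ → ∃ p : ℝ, 0 < p ∧ p < ρ ∧ TH B f (-l + p • k)) :
    ∃ TL TR BL BR, UU B f l k u v TL TR BL BR := by
  obtain ⟨y, hy, hfy, hl0, hlmax⟩ := hl
  obtain ⟨TR, hTR, TL, hTL, e1, e2, g1, g2, t, ht0, ht1, hyt⟩ := mem_face_seg H.toPF hd hy
  have hk1 : ∀ z ∈ B, l z = l y → k z ≤ k TR := by
    intro z hz hlz
    by_cases h : z = TR
    · rw [h]
    · exact (g1 z hz hlz h).le
  have hk2 : ∀ z ∈ B, l z = l y → k TL ≤ k z := by
    intro z hz hlz
    by_cases h : z = TL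
    · rw [h]
    · have := g2 z hz hlz h
      simp only [LinearMap.neg_apply] at this
      linarith
  obtain ⟨P0, hP0, hP0m, _⟩ := exists_PSet H.toPF hy ⟨hfy, hfy⟩ hl0 hlmax
  have hmax := hM P0 hP0
  obtain ⟨c, hc⟩ := H.int
  have hm0 : 0 < f P0 := (H.fpos c hc).trans_le (hmax c (interior_subset hc))
  have hfTL : f P0 ≤ f TL := by
    by_contra hcon
    push Not at hcon
    have h1 := H.fusc TL hTL (f P0) hcon
    rw [eventually_nhdsWithin_iff, Metric.eventually_nhds_iff] at h1
    obtain ⟨r, hr, hball⟩ := h1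
    have hcS : IsCompact (B ∩ {x | r ≤ dist x TL ∧ k x ≤ k TL}) := by
      apply H.cpt.inter_right
      exact IsClosed.inter (isClosed_le continuous_const (continuous_id.dist continuous_const))
        (isClosed_le (cont_lin k) continuous_const)
    obtain ⟨w, hw, hwmin⟩ := H.cpt.exists_isMinOn ⟨y, hy⟩ (cont_lin k).continuousOn
    have hw' : ∀ x ∈ B, k w ≤ k x := fun x hx => hwmin hx
    have key : ∀ p : ℝ, 0 < p → TH B f (-l + p • k) →
        ∃ x ∈ B ∩ {x | r ≤ dist x TL ∧ k x ≤ k TL}, l TL - p * (k TL - k w) ≤ l x := by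
      rintro p hp0 ⟨z, hz, hfz, hn0, hn⟩
      obtain ⟨P, hP, hPm, hPmin⟩ := exists_PSet H.toPF hz ⟨hfz, hfz⟩ hn0 hn
      have hfP : f P0 ≤ f P := hM P hP P0 hP0m
      have h2 := hPmin TL hTL
      simp only [LinearMap.add_apply, LinearMap.neg_apply, LinearMap.smul_apply,
        smul_eq_mul] at h2
      have h3 : l P ≤ l TL := by rw [e2]; exact hlmax P hPm
      have h4 : k P ≤ k TL := by
        by_contra h
        push Not at h
        have := mul_lt_mul_of_pos_left h hp0
        linarith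
      refine ⟨P, ⟨hPm, ?_, h4⟩, ?_⟩
      · by_contra h5
        push Not at h5
        exact absurd (hball h5 hPm) (not_lt.2 hfP)
      · have h6 := mul_le_mul_of_nonneg_left (hw' P hPm) hp0.le
        linarith
    obtain ⟨p1, hp1, _, hT1⟩ := hp 1 one_pos
    obtain ⟨x1, hx1, _⟩ := key p1 hp1 hT1
    obtain ⟨x, hx, hxmax⟩ := hcS.exists_isMaxOn ⟨x1, hx1⟩ (cont_lin l).continuousOn
    have h6 : l TL ≤ l x := by
      by_contra h7
      push Not at h7
      have hC : 0 ≤ k TL - k w := by have := hw' TL hTL; linarith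
      obtain ⟨p, hp0, hpr, hT⟩ := hp ((l TL - l x) / (k TL - k w + 1))
        (div_pos (by linarith) (by linarith))
      obtain ⟨x', hx', h8⟩ := key p hp0 hT
      have h9 : l x' ≤ l x := hxmax hx'
      rw [lt_div_iff₀ (by linarith)] at hpr
      linarith
    have h10 : l x = l y := le_antisymm (hlmax x hx.1) (by rw [← e2]; exact h6)
    have h11 : x = TL := hd.ext (by rw [h10, e2]) (le_antisymm hx.2.2 (hk2 x hx.1 h10))
    have h12 := hx.2.1
    rw [h11, dist_self] at h12
    linarith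
  have hyTR : y = TR := by
    by_cases h : t = 0
    · rw [hyt, h]; simp
    · exfalso
      have h1 := H.fconc.2 hTR hTL (sub_nonneg.2 ht1) ht0 (by ring)
      rw [← hyt, hfy] at h1
      have h0 := H.f0 TR hTR
      simp only [smul_eq_mul] at h1
      have h2 : 0 < t := lt_of_le_of_ne ht0 (Ne.symm h)
      nlinarith [mul_nonneg (sub_nonneg.2 ht1) h0, mul_pos h2 hm0]
  subst hyTR
  obtain ⟨BL, O⟩ := exists_opp H.toPF hd hy hlmax g1
  have hPBL : PSet B f f BL := ⟨y, l, k, u, v, O, ⟨hfy, hfy⟩⟩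
  obtain ⟨BR, hBR, hlBR, hkBR, hkk⟩ := exists_end H.toPF hd O.Pmem
  have hkBR' : ∀ z ∈ B, l z = l BR → k z ≤ k BR := by
    intro z hz hlz
    by_cases h : z = BR
    · rw [h]
    · exact (hkBR z hz (by rw [hlz, hlBR]) h).le
  refine ⟨TL, y, BL, BR, ⟨hd, hTL, hy, O.Pmem, hBR, hlmax, e2, fun z hz h => hk2 z hz h,
    fun z hz h => hk1 z hz h, ?_, hlBR.symm, ?_, hkBR', ?_, hM BL hPBL, hfy, ?_⟩⟩
  · intro z hz
    rw [hlBR]
    exact O.ge z hz
  · intro z hz h
    by_cases h' : z = BL
    · rw [h']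
    · exact (O.Pgt z hz (by rw [h, hlBR]) h').le
  · intro z hz
    exact (hmax z hz).trans hfTL
  · by_cases hn : ∃ n, NN B BR n ∧ 0 < n v
    · left
      obtain ⟨n, ⟨hn0, hnm⟩, hnv⟩ := hn
      -- small `p`
      have hdec : ∀ x, n x = n u * l x + n v * k x := by
        intro x
        have h1 := congrArg n (hd.dec x)
        rw [map_add, map_smul, map_smul, smul_eq_mul, smul_eq_mul] at h1
        linarith
      obtain ⟨p, hp0, hpr, ⟨z, hz, hfz, hz0, hzm⟩⟩ := hp (n v / (|n u| + 1)) (by positivity)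
      rw [lt_div_iff₀ (by positivity)] at hpr
      have h1 : -(n u) ≤ |n u| := neg_le_abs _
      have h2 := hzm BR hBR
      simp only [LinearMap.add_apply, LinearMap.neg_apply, LinearMap.smul_apply,
        smul_eq_mul] at h2
      have h3 := hnm z hz
      have h4 : l BR ≤ l z := by rw [hlBR]; exact O.ge z hz
      rw [hdec z, hdec BR] at h3
      -- `n v * (-l + p k) = p * n - (n v + p * n u) * l`
      have h5 : 0 < n v + p * n u := by nlinarith
      have h6 : l z = l BR := by
        by_contra hne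
        have h7 : l BR < l z := lt_of_le_of_ne h4 (Ne.symm hne)
        nlinarith [mul_pos h5 (sub_pos.2 h7), mul_le_mul_of_nonneg_left h3 hp0.le,
          mul_le_mul_of_nonneg_left h2 hnv.le]
      have h7 : k z = k BR := by
        apply le_antisymm (hkBR' z hz h6)
        rw [h6] at h2
        by_contra h8
        push Not at h8
        have := mul_lt_mul_of_pos_left h8 hp0
        linarith
      rw [← hd.ext h6 h7]
      exact hfz
    · right
      push Not at hn
      exact hn

end Pool.Agent.Lib.MP_5e7226_co.MM
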