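import Pool.Agent.Lib.MP_5e7226_co.MM.Defs

/-! Row M10. Scheme β with seven directions. -/

set_option autoImplicit false

open Set Filter Topology

namespace Pool.Agent.Lib.MP_5e7226_co.MM

open PS CM

variable {B : Set E} {f : E → ℝ}

/-- Scheme β for `h = f`: the rim is illuminated by three horizontal directions, the first of which
also illuminates both ends of the fibre over `P`. -/
theorem caseBeta7 {y P u v : E} {l k : E →ₗ[ℝ] ℝ} (H : PP B f f) (O : Opp B y P l k u v)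
    (hy : Rim f f y) {a₁ a₂ a₃ : E}
    (hD : ∀ z ∈ B, Rim f f z → IN B z a₁ ∨ IN B z a₂ ∨ IN B z a₃)
    (hP1 : IN B P a₁) (hP2 : UP B f P a₁ 0) :
    Good7 B f := by
  set D : ℝ → List (E × ℝ) := fun ε => steep u v ε ++ [(a₁, 0), (a₂, 0), (a₃, 0)] with hDdef
  have hrim : ∀ ε, ∀ z ∈ B, Rim f f z → ∃ d ∈ D ε, Full B f f z d.1 d.2 := by
    intro ε z hz hr
    rcases hD z hz hr with h1 | h1 | h1
    · exact ⟨(a₁, 0), by simp [hDdef], full_rim' H hr h1⟩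
    · exact ⟨(a₂, 0), by simp [hDdef], full_rim' H hr h1⟩
    · exact ⟨(a₃, 0), by simp [hDdef], full_rim' H hr h1⟩
  refine good7_loc H.toPF D (fun ε => by simp [hDdef, steep]) ?_
  intro x hx
  by_cases h1 : x = y
  · subst h1
    rcases hD x hx hy with h1 | h1 | h1
    · exact loc_cov H hx hy h1 _ (fun ε => by simp [hDdef])
    · exact loc_cov H hx hy h1 _ (fun ε => by simp [hDdef])
    · exact loc_cov H hx hy h1 _ (fun ε => by simp [hDdef])
  by_cases h2 : x = P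
  · subst h2
    obtain ⟨r', hr', hh'⟩ := loc0 H.toPF hx hP1 hP2
    refine ⟨r', hr', fun z hz hzx ε hε hεr => ?_⟩
    apply cov_of H.toPF hz (hrim ε z hz)
    intro _
    obtain ⟨b4, b5⟩ := hh' z hz hzx 0 (by simpa using hr')
    exact ⟨⟨(a₁, 0), by simp [hDdef], b4, b5⟩, ⟨(a₁, 0), by simp [hDdef], b4, by simpa using b5⟩⟩
  obtain ⟨r, hr, hh⟩ := steep_cov H.toPF O hx h1 h2
  refine ⟨r, hr, fun z hz hzx ε hε hεr => ?_⟩
  apply cov_of H.toPF hz (hrim ε z hz)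
  intro _
  obtain ⟨⟨d, hd, a⟩, ⟨d', hd', a'⟩⟩ := hh z hz hzx ε hε hεr
  exact ⟨⟨d, List.mem_append_left _ hd, a⟩, ⟨d', List.mem_append_left _ hd', a'⟩⟩

/-- M10. Scheme β with seven directions (`PS.beta` without the eighth direction). -/
theorem beta7 (H : PP B f f) (hA : ∀ P, PSet B f f P → ¬ Rim f f P) {P a : E}
    (hP : PSet B f f P) (h1 : IN B P a) (h2 : UP B f P a 0) : Good7 B f := by
  obtain ⟨y, l, k, u, v, O, hy⟩ := hP
  have ha : a ≠ 0 := by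
    rintro rfl
    obtain ⟨t, _, _, h3⟩ := h2
    simp at h3
  obtain ⟨r, hr, hopen⟩ := dir_open H.toPF O.Pmem h1 h2
  obtain ⟨b, α, β, hd⟩ := dual_of_vec ha
  have hb : 0 < ‖b‖ + 1 := by positivity
  obtain ⟨s, hs0, hs1, hd', x₁, hx₁, x₂, hx₂, hm₁, hm₂⟩ := exists_generic H.toPF hd
    (r := r / (‖b‖ + 1)) (by positivity)
  rw [lt_div_iff₀ hb] at hs1
  obtain ⟨i1, i2⟩ := hopen (a + s • b) (by
    rw [add_sub_cancel_left, norm_smul, Real.norm_eq_abs, abs_of_pos hs0]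
    nlinarith [norm_nonneg b])
  obtain ⟨b', hb1, hb2⟩ := exists_b H (not_both hA hd' hx₁ hx₂ hm₁ hm₂)
  refine caseBeta7 H O hy (a₁ := a + s • b) (a₂ := -(a + s • b)) (a₃ := b') ?_ i1 i2
  intro z hz hrz
  by_cases e1 : z = x₁
  · subst e1; exact Or.inr (Or.inr (hb1 hrz))
  by_cases e2 : z = x₂
  · subst e2; exact Or.inr (Or.inr (hb2 hrz))
  obtain ⟨τ, hτ, hint⟩ := line_int H.toPF hd' hx₁ hx₂ (hm₂ z hz e2) (hm₁ z hz e1)
  rcases lt_or_gt_of_ne hτ with hτ' | hτ'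
  · exact Or.inr (Or.inl ⟨-τ, by linarith, by rw [smul_neg, neg_smul, neg_neg]; exact hint⟩)
  · exact Or.inl ⟨τ, hτ', hint⟩

end Pool.Agent.Lib.MP_5e7226_co.MM
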