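import Pool.Agent.Lib.MP_5e7226_co.CM.Defs

/-! The exceptional bodies with a mirror. -/

set_option autoImplicit false

open Set Filter Topology

namespace Pool.Agent.Lib.MP_5e7226_co.MM

open PS CM

/-- `B` is a parallelogram and the body is a parallelepiped. -/
def ParG (B : Set E) (f : E → ℝ) : Prop :=
  ∃ o v w : E, LinearIndependent ℝ ![v, w] ∧
    B = {x | ∃ s t : ℝ, |s| ≤ 1 ∧ |t| ≤ 1 ∧ x = o + s • v + t • w} ∧
    ((∀ s t : ℝ, |s| ≤ 1 → |t| ≤ 1 → f (o + s • v + t • w) = f o) ∨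
      (∀ s t : ℝ, |s| ≤ 1 → |t| ≤ 1 → f (o + s • v + t • w) = f o * (1 - |t|)))

end Pool.Agent.Lib.MP_5e7226_co.MM
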