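import Pool.Agent.Lib.MP_5e7226_co.CM.Body1
import Pool.Agent.Lib.MP_5e7226_co.CM.Body2
import Pool.Agent.Lib.MP_5e7226_co.CM.Body3
import Pool.Agent.Lib.MP_5e7226_co.MM.ParG

/-! Bodies with a mirror: the body in the coordinates `E × ℝ`. -/

set_option autoImplicit false

open Set Filter Topology

namespace Pool.Agent.Lib.MP_5e7226_co.MM

open PS RT CM

/-- A body which is symmetric about the plane `ℂ × 0` and has `0` in its interior. -/
structure MB (K : Set Q3) : Prop where
  comp : IsCompact K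
  conv : Convex ℝ K
  zero : (0 : Q3) ∈ interior K
  mir : ∀ x ∈ K, ((x.1, -x.2) : Q3) ∈ K

lemma mb_mir {K : Set Q3} (hK : MB K) {x : E} {z : ℝ} (h : (x, z) ∈ CM.LE K) : (x, -z) ∈ CM.LE K :=
  hK.mir _ h

theorem mbody1 {K : Set Q3} (hK : MB K) :
    IsCompact (CM.LE K) ∧ Convex ℝ (CM.LE K) ∧ (interior (CM.LE K)).Nonempty ∧
      (∀ (x : E) (z : ℝ), (x, z) ∈ CM.LE K → (x, 0) ∈ CM.LE K) ∧ bot (CM.LE K) = top (CM.LE K) ∧
      PP (Prod.fst '' CM.LE K) (top (CM.LE K)) (top (CM.LE K)) := by
  have hk : IsCompact (CM.LE K) := by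
    rw [b1_img]
    exact hK.comp.image b1_T.continuous
  have hc : Convex ℝ (CM.LE K) := by
    rw [b1_pre]
    exact hK.conv.linear_preimage b1_T.symm.toLinearMap
  have hi : (interior (CM.LE K)).Nonempty := by
    refine ⟨0, ?_⟩
    rw [b1_int, mem_preimage, map_zero]
    exact hK.zero
  have hs : ∀ (x : E) (z : ℝ), (x, z) ∈ CM.LE K → (x, 0) ∈ CM.LE K := by
    intro x z h
    have h1 := hc h (mb_mir hK h) (show (0 : ℝ) ≤ 1 / 2 by norm_num)
      (show (0 : ℝ) ≤ 1 / 2 by norm_num) (by norm_num)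
    convert h1 using 1
    ext
    · simp only [Prod.smul_mk, Prod.mk_add_mk, Prod.fst_add, Prod.smul_fst, smul_eq_mul]
      ring
    · simp only [Prod.smul_mk, Prod.mk_add_mk, Prod.snd_add, Prod.smul_snd, smul_eq_mul]
      ring
    · simp only [Prod.smul_mk, Prod.mk_add_mk, smul_eq_mul]
      ring
  have hb : bot (CM.LE K) = top (CM.LE K) := by
    funext x
    unfold bot top
    congr 1
    ext z
    constructor
    · intro h
      have := mb_mir hK h
      rwa [neg_neg] at this
    · intro h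
      exact mb_mir hK h
  obtain ⟨H, x0, hx0, hpos⟩ := pf_of_body hc hk hi hs
  rw [hb] at H hpos
  have hpp : ∀ x ∈ interior (Prod.fst '' CM.LE K), 0 < top (CM.LE K) x := by
    intro x hx
    rcases lt_or_eq_of_le (H.f0 x (interior_subset hx)) with h | h
    · exact h
    · have := zero_of_int H hx h.symm x0 hx0
      linarith
  exact ⟨hk, hc, hi, hs, hb, { H with fpos := hpp, hpos := hpp }⟩

theorem mbody2 {K : Set Q3} (hK : MB K) (h : Good7 (Prod.fst '' CM.LE K) (top (CM.LE K))) :
    Served K 7 := by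
  classical
  obtain ⟨hk, hc, hi, hs, hb, H⟩ := mbody1 hK
  have hill : Illum (CM.LE K) 7 := by
    obtain ⟨D, hD7, hD⟩ := h
    refine Illum.of_finset D.toFinset ((List.toFinset_card_le D).trans hD7) ?_
    rintro ⟨x, z⟩ hP
    have hx : x ∈ Prod.fst '' CM.LE K := ⟨_, hP, rfl⟩
    rcases hD x hx with ⟨d, hd, hfull⟩ | ⟨hpos, ⟨d, hd, hin, hup⟩, ⟨d', hd', hin', hup'⟩⟩
    · refine ⟨d, List.mem_toFinset.2 hd, lit_of_full hc hk hi hs ?_ hP⟩
      rw [hb]
      exact hfull
    · by_cases hz : -bot (CM.LE K) x < z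
      · exact ⟨d, List.mem_toFinset.2 hd, lit_of_up hc hk hi hs hin hup hP hz⟩
      · refine ⟨d', List.mem_toFinset.2 hd', lit_of_up' hc hk hi hs hin' ?_ hP ?_⟩
        · rw [hb]
          exact hup'
        · push Not at hz
          rw [hb] at hz
          linarith
  obtain ⟨d, hd⟩ := hill
  refine ⟨fun i => -(b1_T.symm (d i)), fun x hx => ?_⟩
  obtain ⟨i, t, ht, hi'⟩ := hd (b1_T x) (by rw [b1_img]; exact ⟨x, hx, rfl⟩)
  refine ⟨i, fun n hn => ?_⟩
  rw [b1_int, mem_preimage, map_add, map_smul, ContinuousLinearEquiv.symm_apply_apply] at hi'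
  have h1 := b2_strict hn hi'
  rw [b2_pr_add, b2_pr_smul] at h1
  have h2 : pr n (-(b1_T.symm (d i))) = -pr n (b1_T.symm (d i)) := by
    have := b2_pr_smul (-1) n (b1_T.symm (d i))
    rwa [neg_one_smul, neg_one_mul] at this
  rw [h2]
  have h3 : t * pr n (b1_T.symm (d i)) < 0 := by linarith
  have h4 : pr n (b1_T.symm (d i)) < 0 := by
    by_contra hc'
    push Not at hc'
    have := mul_nonneg ht.le hc'
    linarith
  linarith

lemma mb3_compact {K : Set Q3} (hK : MB K) : IsCompact (CM.LE K) := (mbody1 hK).1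

/-- the body is given by its top function -/
lemma mb3_mem {K : Set Q3} (hK : MB K) (q : E) (z : ℝ) :
    bd3_P q z ∈ K ↔ q ∈ Prod.fst '' CM.LE K ∧ |z| ≤ top (CM.LE K) q := by
  have hc := mb3_compact hK
  constructor
  · intro h
    have h1 : (q, z) ∈ CM.LE K := h
    have h2 : (q, -z) ∈ CM.LE K := hK.mir _ h
    exact ⟨⟨(q, z), h1, rfl⟩, abs_le'.2 ⟨le_top hc h1, le_top hc h2⟩⟩
  · rintro ⟨hq, hz⟩
    have h1 : bd3_P q (top (CM.LE K) q) ∈ K := top_mem hc hq
    have h2 : bd3_P q (-(top (CM.LE K) q)) ∈ K := hK.mir _ h1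
    rcases eq_or_lt_of_le (le_trans (abs_nonneg z) hz) with h0 | h0
    · have h3 : z = 0 := by
        have := abs_nonneg z
        rw [← h0] at hz
        exact abs_eq_zero.1 (le_antisymm hz this)
      rw [h3, h0]
      exact h1
    · set T := top (CM.LE K) q with hT
      have h3 := abs_le.1 hz
      have h4 := hK.conv h1 h2 (show 0 ≤ (T + z) / (2 * T) by
        apply div_nonneg <;> linarith) (show 0 ≤ (T - z) / (2 * T) by
        apply div_nonneg <;> linarith) (by field_simp; ring)
      have h5 : ((T + z) / (2 * T)) • bd3_P q T + ((T - z) / (2 * T)) • bd3_P q (-T) = bd3_P q z := by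
        have e1 : (T + z) / (2 * T) + (T - z) / (2 * T) = 1 := by field_simp; ring
        have e2 : (T + z) / (2 * T) * T + (T - z) / (2 * T) * (-T) = z := by field_simp; ring
        apply Prod.ext
        · apply Complex.ext
          · show ((((T + z) / (2 * T)) • (⟨q.1, q.2⟩ : ℂ) + ((T - z) / (2 * T)) • (⟨q.1, q.2⟩ : ℂ))).re = q.1
            rw [← add_smul, e1, one_smul]
          · show ((((T + z) / (2 * T)) • (⟨q.1, q.2⟩ : ℂ) + ((T - z) / (2 * T)) • (⟨q.1, q.2⟩ : ℂ))).im = q.2
            rw [← add_smul, e1, one_smul]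
        · exact e2
      rwa [h5] at h4

/-- the centre of the parallelogram is an interior point of it -/
lemma mb3_center {o v w : E} (hi : LinearIndependent ℝ ![v, w]) :
    o ∈ interior {x : E | ∃ s t : ℝ, |s| ≤ 1 ∧ |t| ≤ 1 ∧ x = o + s • v + t • w} := by
  have hdet : v.1 * w.2 - v.2 * w.1 ≠ 0 := by
    intro hdet
    rw [LinearIndependent.pair_iff] at hi
    have h1 := hi w.2 (-v.2) (by
      apply Prod.ext
      · show w.2 * v.1 + -v.2 * w.1 = 0
        linarith
      · show w.2 * v.2 + -v.2 * w.2 = 0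
        ring)
    have h2 := hi w.1 (-v.1) (by
      apply Prod.ext
      · show w.1 * v.1 + -v.1 * w.1 = 0
        ring
      · show w.1 * v.2 + -v.1 * w.2 = 0
        linarith)
    have h3 := hi 1 0 (by
      apply Prod.ext
      · show 1 * v.1 + 0 * w.1 = 0
        linarith [h2.2]
      · show 1 * v.2 + 0 * w.2 = 0
        linarith [h1.2])
    exact one_ne_zero h3.1
  set d := v.1 * w.2 - v.2 * w.1 with hd
  -- the open parallelogram
  set U : Set E := {x | |((x.1 - o.1) * w.2 - (x.2 - o.2) * w.1) / d| < 1 ∧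
    |(v.1 * (x.2 - o.2) - v.2 * (x.1 - o.1)) / d| < 1} with hU
  have hUo : IsOpen U := by
    have c1 : Continuous fun x : E => |((x.1 - o.1) * w.2 - (x.2 - o.2) * w.1) / d| := by fun_prop
    have c2 : Continuous fun x : E => |(v.1 * (x.2 - o.2) - v.2 * (x.1 - o.1)) / d| := by fun_prop
    exact (isOpen_lt c1 continuous_const).inter (isOpen_lt c2 continuous_const)
  refine interior_maximal (fun x hx => ?_) hUo ?_
  · refine ⟨_, _, hx.1.le, hx.2.le, ?_⟩
    apply Prod.ext
    · show x.1 = o.1 + ((x.1 - o.1) * w.2 - (x.2 - o.2) * w.1) / d * v.1 +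
        (v.1 * (x.2 - o.2) - v.2 * (x.1 - o.1)) / d * w.1
      field_simp
      rw [hd]; ring
    · show x.2 = o.2 + ((x.1 - o.1) * w.2 - (x.2 - o.2) * w.1) / d * v.2 +
        (v.1 * (x.2 - o.2) - v.2 * (x.1 - o.1)) / d * w.2
      field_simp
      rw [hd]; ring
  · constructor <;> simp

theorem mbody3 {K : Set Q3} (hK : MB K) (h : ParG (Prod.fst '' CM.LE K) (top (CM.LE K))) : Par K := by
  obtain ⟨-, -, -, -, -, H⟩ := mbody1 hK
  obtain ⟨o, v, w, hi, hB, hf⟩ := h
  have h0 : 0 < top (CM.LE K) o := H.fpos o (by rw [hB]; exact mb3_center hi)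
  set h' := top (CM.LE K) o with hh
  rcases hf with hf | hf
  · refine ⟨bd3_P o 0, bd3_P v 0, bd3_P ((1 : ℝ) • w) 0, bd3_P ((0 : ℝ) • w) h', ?_, ?_⟩
    · apply bd3_indep3 hi
      simpa using h0.ne'
    · ext x
      have hx : x = bd3_P (x.1.re, x.1.im) x.2 := rfl
      constructor
      · intro hxK
        rw [hx, mb3_mem hK, hB] at hxK
        obtain ⟨⟨s, t, hs, ht, he⟩, hz⟩ := hxK
        rw [he, hf s t hs ht] at hz
        refine ⟨s, t, x.2 / h', hs, ht, ?_, ?_⟩
        · rw [abs_div, abs_of_pos h0]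
          exact (div_le_one h0).2 hz
        · have e1 : x.1.re = o.1 + s * v.1 + t * w.1 := congrArg Prod.fst he
          have e2 : x.1.im = o.2 + s * v.2 + t * w.2 := congrArg Prod.snd he
          apply Prod.ext
          · apply Complex.ext
            · simp [bd3_P, e1]
            · simp [bd3_P, e2]
          · simp [bd3_P, h0.ne']
      · rintro ⟨s, t, r, hs, ht, hr, rfl⟩
        have e : bd3_P o 0 + s • bd3_P v 0 + t • bd3_P ((1 : ℝ) • w) 0 +
            r • bd3_P ((0 : ℝ) • w) h' = bd3_P (o + s • v + t • w) (r * h') := by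
          apply Prod.ext
          · apply Complex.ext
            · simp [bd3_P]
            · simp [bd3_P]
          · simp [bd3_P]
        rw [e, mb3_mem hK, hB]
        refine ⟨⟨s, t, hs, ht, rfl⟩, ?_⟩
        rw [hf s t hs ht, abs_mul, abs_of_pos h0]
        nlinarith
  · refine ⟨bd3_P o 0, bd3_P v 0, bd3_P ((1 / 2 : ℝ) • w) (h' / 2),
      bd3_P ((1 / 2 : ℝ) • w) (-(h' / 2)), ?_, ?_⟩
    · apply bd3_indep3 hi
      intro h1
      apply h0.ne'
      linarith
    · ext x
      have hx : x = bd3_P (x.1.re, x.1.im) x.2 := rfl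
      constructor
      · intro hxK
        rw [hx, mb3_mem hK, hB] at hxK
        obtain ⟨⟨s, t, hs, ht, he⟩, hz⟩ := hxK
        rw [he, hf s t hs ht] at hz
        have hz' : |t| + |x.2 / h'| ≤ 1 := by
          rw [abs_div, abs_of_pos h0]
          have : |x.2| / h' ≤ 1 - |t| := by
            rw [div_le_iff₀ h0]
            linarith
          linarith
        refine ⟨s, t + x.2 / h', t - x.2 / h', hs, ?_, ?_, ?_⟩
        · exact (abs_add_le _ _).trans hz'
        · exact (abs_sub _ _).trans hz'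
        · have e1 : x.1.re = o.1 + s * v.1 + t * w.1 := congrArg Prod.fst he
          have e2 : x.1.im = o.2 + s * v.2 + t * w.2 := congrArg Prod.snd he
          apply Prod.ext
          · apply Complex.ext
            · simp [bd3_P, e1]; ring
            · simp [bd3_P, e2]; ring
          · simp [bd3_P]; field_simp; ring
      · rintro ⟨s, a, b, hs, ha, hb, rfl⟩
        have e : bd3_P o 0 + s • bd3_P v 0 + a • bd3_P ((1 / 2 : ℝ) • w) (h' / 2) +
            b • bd3_P ((1 / 2 : ℝ) • w) (-(h' / 2)) =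
            bd3_P (o + s • v + ((a + b) / 2) • w) ((a - b) / 2 * h') := by
          apply Prod.ext
          · apply Complex.ext
            · simp [bd3_P]; ring
            · simp [bd3_P]; ring
          · simp [bd3_P]; ring
        have h1 := abs_le.1 ha
        have h2 := abs_le.1 hb
        have h3 : |(a + b) / 2| + |(a - b) / 2| ≤ 1 := by
          rcases abs_cases ((a + b) / 2) with h | h <;> rcases abs_cases ((a - b) / 2) with h' | h' <;>
            linarith [h.1, h'.1]
        have h4 : |(a + b) / 2| ≤ 1 := by linarith [abs_nonneg ((a - b) / 2)]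
        rw [e, mb3_mem hK, hB]
        refine ⟨⟨s, (a + b) / 2, hs, h4, rfl⟩, ?_⟩
        rw [hf s _ hs h4, abs_mul, abs_of_pos h0]
        nlinarith

end Pool.Agent.Lib.MP_5e7226_co.MM
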