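import Pool.Agent.Lib.MP_5e7226_co.MM.Defs

/-! Row M1. The cone lemma. Cones of functionals in the plane: four cases. -/

set_option autoImplicit false

open Set Filter Topology

namespace Pool.Agent.Lib.MP_5e7226_co.MM

open PS CM

theorem cone_ext {l k n m : E →ₗ[ℝ] ℝ} {u v : E} (hd : Dual l k u v) (h1 : n u = m u)
    (h2 : n v = m v) : n = m := by
  apply LinearMap.ext
  intro x
  rw [← hd.dec x]
  simp only [map_add, map_smul, smul_eq_mul, h1, h2]

/-- two functionals with given values on a pair -/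
theorem cone_dual {l k n m : E →ₗ[ℝ] ℝ} {u v u' v' : E} (hd : Dual l k u v) (a1 : n u' = 1)
    (a2 : n v' = 0) (a3 : m u' = 0) (a4 : m v' = 1) : Dual n m u' v' := by
  refine ⟨a1, a2, a3, a4, fun x => ?_⟩
  have key : ∀ (g : E →ₗ[ℝ] ℝ) (y : E), g y = l y * g u + k y * g v := by
    intro g y
    conv_lhs => rw [← hd.dec y]
    simp only [map_add, map_smul, smul_eq_mul]
  have e1 := key n u'
  have e2 := key n v'
  have e3 := key m u'
  have e4 := key m v'
  have e5 := key n x
  have e6 := key m x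
  rw [a1] at e1
  rw [a2] at e2
  rw [a3] at e3
  rw [a4] at e4
  obtain ⟨D, hD⟩ : ∃ D, D = n u * m v - n v * m u := ⟨_, rfl⟩
  have f1 : l u' * D = m v := by rw [hD]; linear_combination (-m v) * e1 + n v * e3
  have f2 : l v' * D = -n v := by rw [hD]; linear_combination (-m v) * e2 + n v * e4
  have f3 : k u' * D = -m u := by rw [hD]; linear_combination m u * e1 - n u * e3
  have f4 : k v' * D = n u := by rw [hD]; linear_combination m u * e2 - n u * e4
  have hD0 : D ≠ 0 := by
    intro h0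
    rw [h0, mul_zero] at f1 f2 f3 f4
    rw [← f1, show m u = 0 by linarith] at e4
    norm_num at e4
  apply hd.ext
  · simp only [map_add, map_smul, smul_eq_mul]
    apply mul_left_cancel₀ hD0
    linear_combination n x * f1 + m x * f2 + m v * e5 - n v * e6 - l x * hD
  · simp only [map_add, map_smul, smul_eq_mul]
    apply mul_left_cancel₀ hD0
    linear_combination n x * f3 + m x * f4 - m u * e5 + n u * e6 - k x * hD

/-- The four cases for a cone of functionals: all are negative at some `b`; two antipodal ones;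
three with sum zero; or the cone is almost a half plane. -/
theorem cone_cases (T : Set (E →ₗ[ℝ] ℝ)) (h0 : (0 : E →ₗ[ℝ] ℝ) ∉ T)
    (hne : T.Nonempty) (hs : ∀ n ∈ T, ∀ c : ℝ, 0 < c → c • n ∈ T) :
    (∃ b : E, ∀ n ∈ T, n b < 0) ∨ (∃ n ∈ T, -n ∈ T) ∨
    (∃ l₁ ∈ T, ∃ l₂ ∈ T, ∃ l₃ ∈ T, l₁ + l₂ + l₃ = 0 ∧ ∃ u v : E, Dual l₁ l₂ u v) ∨
    (∃ l ∈ T, ∃ (k : E →ₗ[ℝ] ℝ) (u v : E), Dual l k u v ∧ (∀ n ∈ T, 0 ≤ n v) ∧
      ∀ ρ : ℝ, 0 < ρ → ∃ p : ℝ, 0 < p ∧ p < ρ ∧ -l + p • k ∈ T) := by
  obtain ⟨n0, hn0⟩ := hne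
  have hn00 : n0 ≠ 0 := fun h => h0 (h ▸ hn0)
  obtain ⟨c, k, u, v, hc, hd⟩ := exists_dual n0 hn00
  obtain ⟨N, hN⟩ : ∃ N, N = c • n0 := ⟨_, rfl⟩
  have hNT : N ∈ T := by rw [hN]; exact hs n0 hn0 c hc
  rw [← hN] at hd
  by_cases hα : ∃ n ∈ T, -n ∈ T
  · exact Or.inr (Or.inl hα)
  have hα' : ∀ n ∈ T, -n ∉ T := fun n hn hn' => hα ⟨n, hn, hn'⟩
  -- functionals vanishing at `v`
  have hz : ∀ n ∈ T, n v = 0 → 0 < n u := by
    intro n hn hnv
    by_contra hcon
    rw [not_lt] at hcon
    rcases lt_or_eq_of_le hcon with h1 | h1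
    · refine hα' N hNT ?_
      have h2 := hs n hn (1 / (-(n u))) (by apply one_div_pos.2; linarith)
      have e : (1 / (-(n u))) • n = -N := by
        apply cone_ext hd
        · simp only [LinearMap.smul_apply, smul_eq_mul, LinearMap.neg_apply, hd.lu]
          have : n u ≠ 0 := h1.ne
          field_simp
        · simp only [LinearMap.smul_apply, smul_eq_mul, LinearMap.neg_apply, hd.lv, hnv]
          ring
      rwa [e] at h2
    · apply h0
      have e : n = 0 := by
        apply cone_ext hd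
        · rw [h1]; rfl
        · rw [hnv]; rfl
      rwa [← e]
  -- the normalised functionals
  have hpos : ∀ n ∈ T, 0 < n v → ∃ m ∈ T, m v = 1 ∧ m u = n u / n v := by
    intro n hn hnv
    refine ⟨(1 / n v) • n, hs n hn _ (one_div_pos.2 hnv), ?_, ?_⟩
    · simp only [LinearMap.smul_apply, smul_eq_mul]
      field_simp
    · simp only [LinearMap.smul_apply, smul_eq_mul]
      ring
  have hneg : ∀ n ∈ T, n v < 0 → ∃ m ∈ T, m v = -1 ∧ m u = -(n u / n v) := by
    intro n hn hnv
    have hne : n v ≠ 0 := hnv.ne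
    refine ⟨(1 / (-(n v))) • n, hs n hn _ (one_div_pos.2 (by linarith)), ?_, ?_⟩
    · simp only [LinearMap.smul_apply, smul_eq_mul]
      field_simp
    · simp only [LinearMap.smul_apply, smul_eq_mul]
      field_simp
  by_cases hviol : ∃ n ∈ T, ∃ n' ∈ T, 0 < n v ∧ n' v < 0 ∧ n u / n v ≤ n' u / n' v
  · obtain ⟨n, hn, n', hn', hv1, hv2, hle⟩ := hviol
    obtain ⟨m, hm, m1, m2⟩ := hpos n hn hv1
    obtain ⟨m', hm', m3, m4⟩ := hneg n' hn' hv2
    rcases lt_or_eq_of_le hle with hlt | heq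
    · right; right; left
      obtain ⟨s, hs'⟩ : ∃ s, s = n' u / n' v - n u / n v := ⟨_, rfl⟩
      have hspos : 0 < s := by rw [hs']; linarith
      refine ⟨m, hm, m', hm', s • N, hs N hNT s hspos, ?_, ?_⟩
      · apply cone_ext hd
        · simp only [LinearMap.add_apply, LinearMap.smul_apply, smul_eq_mul, hd.lu,
            LinearMap.zero_apply, m2, m4, hs']
          ring
        · simp only [LinearMap.add_apply, LinearMap.smul_apply, smul_eq_mul, hd.lv,
            LinearMap.zero_apply, m1, m3]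
          ring
      · -- the dual pair
        obtain ⟨x, hx⟩ : ∃ x, x = n u / n v := ⟨_, rfl⟩
        obtain ⟨y, hy⟩ : ∃ y, y = n' u / n' v := ⟨_, rfl⟩
        rw [← hx] at m2
        rw [← hy] at m4
        rw [← hx, ← hy] at hs'
        refine ⟨(-(1 / s)) • u + (y / s) • v, (-(1 / s)) • u + (x / s) • v, cone_dual hd ?_ ?_ ?_ ?_⟩
        all_goals
          simp only [map_add, map_smul, smul_eq_mul, m1, m2, m3, m4]
          field_simp
          rw [hs']
          ring
    · exfalso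
      apply hα' m hm
      have e : m' = -m := by
        apply cone_ext hd
        · rw [m4, LinearMap.neg_apply, m2, heq]
        · rw [m3, LinearMap.neg_apply, m1]
      rwa [← e]
  push Not at hviol
  -- now `n' u / n' v < n u / n v` always
  set A : Set ℝ := {x | ∃ n ∈ T, 0 < n v ∧ x = n u / n v} with hA
  set B : Set ℝ := {x | ∃ n ∈ T, n v < 0 ∧ x = n u / n v} with hB
  have hAB : ∀ x ∈ A, ∀ y ∈ B, y < x := by
    rintro x ⟨n, hn, h1, rfl⟩ y ⟨n', hn', h2, rfl⟩
    exact hviol n hn n' hn' h1 h2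
  -- a number in between gives `b`
  have hb : ∀ b1 : ℝ, (∀ x ∈ A, b1 < x) → (∀ y ∈ B, y < b1) → ∀ n ∈ T, n (b1 • v - u) < 0 := by
    intro b1 hb1 hb2 n hn
    rw [map_sub, map_smul, smul_eq_mul]
    rcases lt_trichotomy (n v) 0 with h | h | h
    · have := hb2 _ ⟨n, hn, h, rfl⟩
      rw [div_lt_iff_of_neg h] at this
      linarith
    · have := hz n hn h
      rw [h]
      linarith
    · have := hb1 _ ⟨n, hn, h, rfl⟩
      rw [lt_div_iff₀ h] at this
      linarith
  by_cases hmid : ∃ b1 : ℝ, (∀ x ∈ A, b1 < x) ∧ (∀ y ∈ B, y < b1)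
  · obtain ⟨b1, h1, h2⟩ := hmid
    exact Or.inl ⟨_, hb b1 h1 h2⟩
  right; right; right
  rcases A.eq_empty_or_nonempty with hAe | hAn
  · -- `A` is empty, so `B` is unbounded above
    have hBu : ∀ b1 : ℝ, ∃ y ∈ B, b1 ≤ y := by
      intro b1
      by_contra hcon
      push Not at hcon
      exact hmid ⟨b1, by simp [hAe], hcon⟩
    refine ⟨N, hNT, -k, u, -v, hd.negk, ?_, ?_⟩
    · intro n hn
      rw [map_neg]
      by_contra hcon
      have : (n u / n v) ∈ A := ⟨n, hn, by linarith, rfl⟩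
      rw [hAe] at this
      exact this
    · intro ρ hρ
      obtain ⟨y, ⟨n, hn, h1, rfl⟩, hy⟩ := hBu (1 / ρ + 1)
      have h2 : 1 / ρ < n u / n v := by linarith
      rw [lt_div_iff_of_neg h1] at h2
      have h3 : 0 < 1 / ρ := one_div_pos.2 hρ
      have h4 : n u < 0 := by nlinarith
      refine ⟨n v / n u, div_pos_of_neg_of_neg h1 h4, ?_, ?_⟩
      · rw [div_lt_iff_of_neg h4]
        have h5 : ρ * (n u) < ρ * (1 / ρ * n v) := mul_lt_mul_of_pos_left h2 hρ
        have h6 : ρ * (1 / ρ * n v) = n v := by field_simp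
        linarith
      · have h7 := hs n hn (1 / (-(n u))) (one_div_pos.2 (by linarith))
        have e : (1 / (-(n u))) • n = -N + (n v / n u) • -k := by
          apply cone_ext hd
          · simp only [LinearMap.smul_apply, smul_eq_mul, LinearMap.add_apply, LinearMap.neg_apply,
              hd.lu, hd.ku]
            have : n u ≠ 0 := h4.ne
            field_simp
            ring
          · simp only [LinearMap.smul_apply, smul_eq_mul, LinearMap.add_apply, LinearMap.neg_apply,
              hd.lv, hd.kv]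
            have : n u ≠ 0 := h4.ne
            field_simp
            ring
        rwa [e] at h7
  rcases B.eq_empty_or_nonempty with hBe | hBn
  · -- `B` is empty, so `A` is unbounded below
    have hAu : ∀ b1 : ℝ, ∃ x ∈ A, x ≤ b1 := by
      intro b1
      by_contra hcon
      push Not at hcon
      exact hmid ⟨b1, hcon, by simp [hBe]⟩
    refine ⟨N, hNT, k, u, v, hd, ?_, ?_⟩
    · intro n hn
      by_contra hcon
      have : (n u / n v) ∈ B := ⟨n, hn, by linarith, rfl⟩
      rw [hBe] at this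
      exact this
    · intro ρ hρ
      obtain ⟨y, ⟨n, hn, h1, rfl⟩, hy⟩ := hAu (-(1 / ρ) - 1)
      have h2 : n u / n v < -(1 / ρ) := by linarith
      rw [div_lt_iff₀ h1] at h2
      have h3 : 0 < 1 / ρ := one_div_pos.2 hρ
      have h4 : n u < 0 := by nlinarith
      refine ⟨n v / (-(n u)), div_pos h1 (by linarith), ?_, ?_⟩
      · rw [div_lt_iff₀ (by linarith)]
        have h5 : ρ * (n u) < ρ * (-(1 / ρ) * n v) := mul_lt_mul_of_pos_left h2 hρ
        have h6 : ρ * (-(1 / ρ) * n v) = -(n v) := by field_simp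
        linarith
      · have h7 := hs n hn (1 / (-(n u))) (one_div_pos.2 (by linarith))
        have e : (1 / (-(n u))) • n = -N + (n v / (-(n u))) • k := by
          apply cone_ext hd
          · simp only [LinearMap.smul_apply, smul_eq_mul, LinearMap.add_apply, LinearMap.neg_apply,
              hd.lu, hd.ku]
            have : n u ≠ 0 := h4.ne
            field_simp
            ring
          · simp only [LinearMap.smul_apply, smul_eq_mul, LinearMap.add_apply, LinearMap.neg_apply,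
              hd.lv, hd.kv]
            have : n u ≠ 0 := h4.ne
            field_simp
            ring
        rwa [e] at h7
  -- both are nonempty
  have hAb : BddBelow A := by
    obtain ⟨y, hy⟩ := hBn
    exact ⟨y, fun x hx => (hAB x hx y hy).le⟩
  have hBb : BddAbove B := by
    obtain ⟨x, hx⟩ := hAn
    exact ⟨x, fun y hy => (hAB x hx y hy).le⟩
  obtain ⟨I, hI⟩ : ∃ I, I = sInf A := ⟨_, rfl⟩
  have hIle : ∀ x ∈ A, I ≤ x := fun x hx => by rw [hI]; exact csInf_le hAb hx
  have hBI : ∀ y ∈ B, y ≤ I := fun y hy => by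
    rw [hI]
    exact le_csInf hAn fun x hx => (hAB x hx y hy).le
  have hIex : ∀ δ : ℝ, 0 < δ → ∃ x ∈ A, x < I + δ := fun δ hδ =>
    exists_lt_of_csInf_lt hAn (by rw [← hI]; linarith)
  have hvI : ∀ n ∈ T, 0 ≤ n (u - I • v) := by
    intro n hn
    rw [map_sub, map_smul, smul_eq_mul]
    rcases lt_trichotomy (n v) 0 with h | h | h
    · have := hBI _ ⟨n, hn, h, rfl⟩
      rw [div_le_iff_of_neg h] at this
      linarith
    · have := hz n hn h
      rw [h]
      linarith
    · have := hIle _ ⟨n, hn, h, rfl⟩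
      rw [le_div_iff₀ h] at this
      linarith
  -- `I` is not strictly separating
  by_cases hIA : I ∈ A
  · -- then the supremum of `B` is `I`
    have hBex : ∀ δ : ℝ, 0 < δ → ∃ y ∈ B, I - δ < y := by
      intro δ hδ
      by_contra hcon
      push Not at hcon
      refine hmid ⟨I - δ / 2, fun x hx => ?_, fun y hy => ?_⟩
      · have := hIle x hx; linarith
      · have := hcon y hy; linarith
    obtain ⟨n, hn, h1, h2⟩ := hIA
    obtain ⟨m, hm, m1, m2⟩ := hpos n hn h1
    rw [← h2] at m2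
    refine ⟨m, hm, N, v, u - I • v, cone_dual hd m1 ?_ hd.lv ?_, hvI, ?_⟩
    · rw [map_sub, map_smul, smul_eq_mul, m1, m2]; ring
    · rw [map_sub, map_smul, smul_eq_mul, hd.lu, hd.lv]; ring
    · intro ρ hρ
      obtain ⟨y, ⟨n', hn', h3, rfl⟩, hy⟩ := hBex ρ hρ
      have hlt : n' u / n' v < I := by
        rw [h2]
        exact hviol n hn n' hn' h1 h3
      obtain ⟨m', hm', m3, m4⟩ := hneg n' hn' h3
      refine ⟨I - n' u / n' v, by linarith, by linarith, ?_⟩
      have e : m' = -m + (I - n' u / n' v) • N := by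
        apply cone_ext hd
        · simp only [LinearMap.smul_apply, smul_eq_mul, LinearMap.add_apply, LinearMap.neg_apply,
            hd.lu, m2, m4]
          ring
        · simp only [LinearMap.smul_apply, smul_eq_mul, LinearMap.add_apply, LinearMap.neg_apply,
            hd.lv, m1, m3]
          ring
      rwa [← e]
  · -- then `I ∈ B`
    have hIB : I ∈ B := by
      by_contra hIB
      refine hmid ⟨I, fun x hx => lt_of_le_of_ne (hIle x hx) (fun h => hIA (h ▸ hx)), fun y hy =>
        lt_of_le_of_ne (hBI y hy) (fun h => hIB (h ▸ hy))⟩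
    obtain ⟨n', hn', h1, h2⟩ := hIB
    obtain ⟨m', hm', m3, m4⟩ := hneg n' hn' h1
    rw [← h2] at m4
    refine ⟨m', hm', N, -v, u - I • v, cone_dual hd ?_ ?_ ?_ ?_, hvI, ?_⟩
    · rw [map_neg, m3]; ring
    · rw [map_sub, map_smul, smul_eq_mul, m3, m4]; ring
    · rw [map_neg, hd.lv]; ring
    · rw [map_sub, map_smul, smul_eq_mul, hd.lu, hd.lv]; ring
    · intro ρ hρ
      obtain ⟨x, ⟨n, hn, h3, rfl⟩, hx⟩ := hIex ρ hρ
      have hlt : I < n u / n v := by
        rw [h2]
        exact hviol n hn n' hn' h3 h1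
      obtain ⟨m, hm, m1, m2⟩ := hpos n hn h3
      refine ⟨n u / n v - I, by linarith, by linarith, ?_⟩
      have e : m = -m' + (n u / n v - I) • N := by
        apply cone_ext hd
        · simp only [LinearMap.smul_apply, smul_eq_mul, LinearMap.add_apply, LinearMap.neg_apply,
            hd.lu, m2, m4]
          ring
        · simp only [LinearMap.smul_apply, smul_eq_mul, LinearMap.add_apply, LinearMap.neg_apply,
            hd.lv, m1, m3]
          ring
      rwa [← e]

/-- `Θ` a cone of nonzero functionals which is in no open half plane. -/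
theorem cone (Θ : (E →ₗ[ℝ] ℝ) → Prop) (hne : ∃ n, Θ n) (h0 : ∀ n, Θ n → n ≠ 0)
    (hs : ∀ n, Θ n → ∀ c : ℝ, 0 < c → Θ (c • n)) (h3 : ¬ ∃ b : E, ∀ n, Θ n → n b < 0) :
    (∃ n, Θ n ∧ Θ (-n)) ∨
      (∃ l₁ l₂ l₃ : E →ₗ[ℝ] ℝ, Θ l₁ ∧ Θ l₂ ∧ Θ l₃ ∧ l₁ + l₂ + l₃ = 0) ∨
      (∃ (l k : E →ₗ[ℝ] ℝ) (u v : E), Θ l ∧ Dual l k u v ∧ (∀ n, Θ n → 0 ≤ n v) ∧
        ∀ ρ : ℝ, 0 < ρ → ∃ p : ℝ, 0 < p ∧ p < ρ ∧ Θ (-l + p • k)) := by
  rcases cone_cases {n | Θ n} (fun h => h0 0 h rfl) hne hs with h | ⟨n, h1, h2⟩ |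
    ⟨l₁, h1, l₂, h2, l₃, h3', hsum, _⟩ | ⟨l, hl, k, u, v, hd, hv, hp⟩
  · exact absurd h h3
  · exact Or.inl ⟨n, h1, h2⟩
  · exact Or.inr (Or.inl ⟨l₁, l₂, l₃, h1, h2, h3', hsum⟩)
  · exact Or.inr (Or.inr ⟨l, k, u, v, hl, hd, hv, hp⟩)

end Pool.Agent.Lib.MP_5e7226_co.MM
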