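import Pool.Agent.Lib.MP_5e7226_co.CM.CoordA
import Pool.Agent.Lib.MP_5e7226_co.CM.Coord14
import Pool.Agent.Lib.MP_5e7226_co.MM.Body

/-! Coordinates for a body with a mirror. -/

set_option autoImplicit false

open Set Filter Topology

namespace Pool.Agent.Lib.MP_5e7226_co.MM

open PS RT CM

theorem MB_pol {K : Set Q3} (hK : MB K) : MB (pol K) := by
  refine ⟨?_, ?_, ?_, ?_⟩
  · -- compact
    obtain ⟨C, hC⟩ := n2_bound hK.zero
    have hcl : IsClosed (pol K) := by
      have h1 : pol K = ⋂ x ∈ K, {u : Q3 | pr u x ≤ 1} := by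
        ext u
        simp [pol]
      rw [h1]
      exact isClosed_biInter fun x _ => isClosed_le (n2_pr_continuous x) continuous_const
    refine Metric.isCompact_of_isClosed_isBounded hcl ?_
    refine (Metric.isBounded_closedBall (x := (0 : Q3)) (r := C)).subset fun u hu => ?_
    rw [mem_closedBall_zero_iff]
    exact hC u hu
  · -- convex
    intro u hu v hv a b ha hb hab x hx
    have h1 := hu x hx
    have h2 := hv x hx
    have h3 : pr (a • u + b • v) x = a * pr u x + b * pr v x := by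
      simp only [pr, dotC, Prod.fst_add, Prod.snd_add, Prod.smul_fst, Prod.smul_snd,
        Complex.add_re, Complex.add_im, Complex.real_smul, Complex.mul_re, Complex.mul_im,
        Complex.ofReal_re, Complex.ofReal_im, smul_eq_mul]
      ring
    rw [h3]
    calc a * pr u x + b * pr v x ≤ a * 1 + b * 1 :=
          add_le_add (mul_le_mul_of_nonneg_left h1 ha) (mul_le_mul_of_nonneg_left h2 hb)
      _ = 1 := by rw [mul_one, mul_one, hab]
  · -- the origin
    obtain ⟨R, hR⟩ := hK.comp.isBounded.exists_norm_le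
    rw [mem_interior_iff_mem_nhds, Metric.mem_nhds_iff]
    refine ⟨1 / (2 * (|R| + 1)), by positivity, fun u hu x hx => ?_⟩
    rw [mem_ball_zero_iff] at hu
    have h1 := n2_pr_le u x
    have h2 : ‖x‖ ≤ |R| + 1 := (hR x hx).trans ((le_abs_self R).trans (by linarith))
    have h3 : ‖u‖ * ‖x‖ ≤ 1 / (2 * (|R| + 1)) * (|R| + 1) :=
      mul_le_mul hu.le h2 (norm_nonneg _) (by positivity)
    have h4 : 1 / (2 * (|R| + 1)) * (|R| + 1) = 1 / 2 := by
      have : |R| + 1 ≠ 0 := by positivity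
      field_simp
    rw [h4] at h3
    linarith
  · -- the mirror
    intro u hu x hx
    have h1 := hu _ (hK.mir x hx)
    have h2 : pr ((u.1, -u.2) : Q3) x = pr u (x.1, -x.2) := by
      simp only [pr]
      ring
    rw [h2]
    exact h1

/-- coordinates, if the fixed space of the involution `g` is a plane -/
theorem exists_MB {K : Set E3} {o : E3} (hconv : Convex ℝ K) (hcomp : IsCompact K)
    (ho : o ∈ interior K) {g : E3 →ₗ[ℝ] E3}
    (hg : ∀ x, o + x ∈ K ↔ o + g x ∈ K) (hsq : ∀ x, g (g x) = x)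
    (hd : Module.finrank ℝ (r14P g) = 2) :
    ∃ b : Module.Basis (Fin 3) ℝ E3, MB (cb b o K) := by
  have hdim : Module.finrank ℝ E3 = 3 := by simp
  have hN : Module.finrank ℝ (r14N g) = 1 := by
    have := Submodule.finrank_add_eq_of_isCompl (r14_compl hsq)
    omega
  let e1 : ℂ ≃ₗ[ℝ] r14P g := LinearEquiv.ofFinrankEq _ _ (by rw [hd]; exact Complex.finrank_real_complex)
  let e2 : ℝ ≃ₗ[ℝ] r14N g := LinearEquiv.ofFinrankEq _ _ (by rw [hN]; exact Module.finrank_self ℝ)
  let Φ : Q3 ≃ₗ[ℝ] E3 :=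
    (e1.prodCongr e2).trans (Submodule.prodEquivOfIsCompl _ _ (r14_compl hsq))
  have hΦ : ∀ q : Q3, Φ q = (e1 q.1 : E3) + (e2 q.2 : E3) := fun q => rfl
  have hgΦ : ∀ q : Q3, g (Φ q) = Φ (q.1, -q.2) := by
    intro q
    rw [hΦ, hΦ, map_add, r14_memP.1 (e1 q.1).2, r14_memN.1 (e2 q.2).2]
    simp
  set K₁ : Set E3 := {x | o + x ∈ K} with hK₁
  have hK₁e : K₁ = (Homeomorph.addLeft o) ⁻¹' K := rfl
  have hK₁c : IsCompact K₁ := by
    rw [hK₁e]; exact (Homeomorph.addLeft o).isCompact_preimage.2 hcomp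
  have hK₁i : (0 : E3) ∈ interior K₁ := by
    rw [hK₁e, ← (Homeomorph.addLeft o).preimage_interior]
    simpa using ho
  refine ⟨Module.Basis.ofEquivFun (Φ.symm.trans n1E), ?_⟩
  rw [n1_cb]
  let Ψ := Φ.toContinuousLinearEquiv
  have hC : {q : Q3 | o + Φ q ∈ K} = Ψ.toHomeomorph ⁻¹' K₁ := rfl
  refine ⟨?_, ?_, ?_, ?_⟩
  · rw [hC]; exact Ψ.toHomeomorph.isCompact_preimage.2 hK₁c
  · have h1 : Convex ℝ K₁ := by
      rw [hK₁e]
      have := hconv.translate_preimage_right o
      exact this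
    exact h1.linear_preimage Φ.toLinearMap
  · rw [hC, ← Ψ.toHomeomorph.preimage_interior]
    simpa using hK₁i
  · intro q hq
    show o + Φ (q.1, -q.2) ∈ K
    rw [← hgΦ]
    exact (hg _).1 hq

end Pool.Agent.Lib.MP_5e7226_co.MM
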