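import Pool.Agent.Lib.MP_5e7226_co.CM.Defs

/-! Bodies with a mirror: definitions. -/

set_option autoImplicit false

open Set Filter Topology

namespace Pool.Agent.Lib.MP_5e7226_co.MM

open PS CM

variable {B : Set E} {f : E → ℝ}

/-- `n` is an outward normal of `B` at `x`. -/
def NN (B : Set E) (x : E) (n : E →ₗ[ℝ] ℝ) : Prop := n ≠ 0 ∧ ∀ z ∈ B, n z ≤ n x

/-- `n` is an outward normal of `B` at a rim point. -/
def TH (B : Set E) (f : E → ℝ) (n : E →ₗ[ℝ] ℝ) : Prop := ∃ x ∈ B, f x = 0 ∧ NN B x n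

theorem NN.smul {x : E} {n : E →ₗ[ℝ] ℝ} (h : NN B x n) {c : ℝ} (hc : 0 < c) : NN B x (c • n) :=
  ⟨smul_ne_zero hc.ne' h.1, fun z hz => by
    simp only [LinearMap.smul_apply, smul_eq_mul]
    exact mul_le_mul_of_nonneg_left (h.2 z hz) hc.le⟩

theorem TH.smul {n : E →ₗ[ℝ] ℝ} (h : TH B f n) {c : ℝ} (hc : 0 < c) : TH B f (c • n) := by
  obtain ⟨x, hx, hf, hn⟩ := h
  exact ⟨x, hx, hf, hn.smul hc⟩

/-- inward directions -/
theorem IN_iff (H : PF B f f) {x a : E} (hx : x ∈ B) : IN B x a ↔ ∀ n, NN B x n → n a < 0 := by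
  constructor
  · rintro ⟨t, ht, hint⟩ n ⟨hn0, hn⟩
    by_contra hcon
    push Not at hcon
    obtain ⟨w, hw⟩ : ∃ w, 0 < n w := by
      by_contra h2
      push Not at h2
      apply hn0
      apply LinearMap.ext
      intro y
      have h3 := h2 y
      have h4 := h2 (-y)
      rw [map_neg] at h4
      simp only [LinearMap.zero_apply]
      linarith
    obtain ⟨s, hs, hin⟩ := H.in_of_int hint w
    have h5 := hn _ (interior_subset hin)
    rw [map_add, map_add, map_smul, map_smul, smul_eq_mul, smul_eq_mul] at h5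
    have h6 := mul_pos hs hw
    have h7 := mul_nonneg ht.le hcon
    linarith
  · intro h
    exact IN_of_forall H hx (fun n hn0 hn => h n ⟨hn0, hn⟩)

/-- compactness: local uniformity in `ε` suffices -/
theorem good7_loc (H : PF B f f) (D : ℝ → List (E × ℝ)) (hD : ∀ ε, (D ε).length ≤ 7)
    (hl : ∀ x ∈ B, ∃ r : ℝ, 0 < r ∧ ∀ y ∈ B, ‖y - x‖ < r → ∀ ε : ℝ, 0 < ε → ε < r →
      Cov B f f (D ε) y) : Good7 B f := by
  obtain ⟨ε, _, h1⟩ := unif_of_loc H (fun ε y => Cov B f f (D ε) y) hl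
  exact ⟨D ε, hD ε, h1⟩

/-- The hypotheses of Lemma U. -/
structure UU (B : Set E) (f : E → ℝ) (l k : E →ₗ[ℝ] ℝ) (u v TL TR BL BR : E) : Prop
    extends Dual l k u v where
  TLm : TL ∈ B
  TRm : TR ∈ B
  BLm : BL ∈ B
  BRm : BR ∈ B
  top : ∀ z ∈ B, l z ≤ l TR
  topL : l TL = l TR
  TLk : ∀ z ∈ B, l z = l TR → k TL ≤ k z
  TRk : ∀ z ∈ B, l z = l TR → k z ≤ k TR
  bot : ∀ z ∈ B, l BR ≤ l z
  botL : l BL = l BR
  BLk : ∀ z ∈ B, l z = l BR → k BL ≤ k z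
  BRk : ∀ z ∈ B, l z = l BR → k z ≤ k BR
  fTL : ∀ z ∈ B, f z ≤ f TL
  fBL : ∀ z ∈ B, f z ≤ f BL
  fTR : f TR = 0
  fBR : f BR = 0 ∨ ∀ n, NN B BR n → n v ≤ 0

end Pool.Agent.Lib.MP_5e7226_co.MM
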