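import Pool.Agent.Lib.MP_5e7226_co.MM.LemU1

/-! Row M2 (helper16). Lemma U, the scheme. -/

set_option autoImplicit false

open Set Filter Topology

namespace Pool.Agent.Lib.MP_5e7226_co.MM

open PS CM

variable {B : Set E} {f : E → ℝ} {l k : E →ₗ[ℝ] ℝ} {u v TL TR BL BR : E}

/-- the seven directions -/
noncomputable def DU (u v : E) (δ ε : ℝ) : List (E × ℝ) :=
  [(v - ε • u, 1 / ε), (v - ε • u, -(1 / ε)), (v + δ • u, 1 / ε), (v + δ • u, -(1 / ε)),
    (-v - ε • u, ε), (-v + ε • u, -ε), (v, 0)]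

/-- rim points -/
theorem UU.rim (H : PP B f f) (hU : UU B f l k u v TL TR BL BR) (δ : ℝ) :
    ∃ ε₁ : ℝ, 0 < ε₁ ∧ ∀ ε : ℝ, 0 < ε → ε < ε₁ → ∀ z ∈ B, f z = 0 →
      ∃ d ∈ DU u v δ ε, Full B f f z d.1 d.2 := by
  have hm := hU.mpos H
  have hΔ := hU.delta H
  obtain ⟨ε₀, Λ, hε₀, hΛ, hch⟩ := hU.chord H (κ := (l TR - l BR) / 2) (by linarith)
  refine ⟨min ε₀ (f TL / Λ), lt_min hε₀ (by positivity), fun ε hε hε1 z hz hfz => ?_⟩
  have c1 : ε < ε₀ := hε1.trans_le (min_le_left _ _)
  have c2 : ε * Λ < f TL := by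
    have := hε1.trans_le (min_le_right _ _)
    rwa [lt_div_iff₀ hΛ] at this
  by_cases hv : IN B z v
  · exact ⟨(v, 0), by simp [DU], full_rim' H ⟨hfz, hfz⟩ hv⟩
  have hg := hU.gpos_rim H hz hfz hv
  obtain ⟨h1, h2⟩ := hch ε hε c1 z hz hg
  by_cases hl : l BR + (l TR - l BR) / 2 ≤ l z
  · obtain ⟨hin, t, ht, htΛ, hmem, hft⟩ := h1 hl
    have c3 : t * ε ≤ Λ * ε := mul_le_mul_of_nonneg_right htΛ hε.le
    have c4 := mul_pos ht hε
    refine ⟨(-v - ε • u, ε), by simp [DU], hin, ⟨t, ht, hmem, ?_⟩, ⟨t, ht, hmem, ?_⟩⟩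
    · show f z + t * ε < f (z + t • (-v - ε • u))
      rw [hft, hfz]; linarith
    · show f z + t * -ε < f (z + t • (-v - ε • u))
      rw [hft, hfz]; linarith
  · push Not at hl
    obtain ⟨hin, t, ht, htΛ, hmem, hft⟩ := h2 (by linarith)
    have c3 : t * ε ≤ Λ * ε := mul_le_mul_of_nonneg_right htΛ hε.le
    have c4 := mul_pos ht hε
    refine ⟨(-v + ε • u, -ε), by simp [DU], hin, ⟨t, ht, hmem, ?_⟩, ⟨t, ht, hmem, ?_⟩⟩
    · show f z + t * -ε < f (z + t • (-v + ε • u))
      rw [hft, hfz]; linarith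
    · show f z + t * - -ε < f (z + t • (-v + ε • u))
      rw [hft, hfz]; linarith

/-- both ends of the fibre over `z` are lit -/
def NR (B : Set E) (f : E → ℝ) (D : List (E × ℝ)) (z : E) : Prop :=
  (∃ d ∈ D, IN B z d.1 ∧ UP B f z d.1 d.2) ∧ (∃ d ∈ D, IN B z d.1 ∧ UP B f z d.1 (-d.2))

/-- steep directions -/
theorem UU.steepA (H : PP B f f) {x : E} {τ : ℝ} (δ : ℝ) (hτ : 0 < τ)
    (hh : ∃ r : ℝ, 0 < r ∧ ∀ z ∈ B, ‖z - x‖ < r → ∀ ε : ℝ, 0 < ε → ε < r →
      z + τ • (v - ε • u) ∈ interior B) :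
    ∃ r : ℝ, 0 < r ∧ ∀ z ∈ B, ‖z - x‖ < r → ∀ ε : ℝ, 0 < ε → ε < r → NR B f (DU u v δ ε) z := by
  obtain ⟨r, hr, hh⟩ := hh
  obtain ⟨R, hR, hb⟩ := H.toPF.bound
  refine ⟨min r (τ / R), lt_min hr (div_pos hτ hR), fun z hz hzx ε hε hεr => ?_⟩
  have hint := hh z hz (hzx.trans_le (min_le_left _ _)) ε hε (hεr.trans_le (min_le_left _ _))
  have hεt : ε * R < τ := by
    have := hεr.trans_le (min_le_right _ _)
    rwa [lt_div_iff₀ hR] at this
  obtain ⟨u1, _⟩ := steep_of H.toPF hb hz hτ hint hε hεt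
  refine ⟨⟨(v - ε • u, -(1 / ε)), by simp [DU], ⟨τ, hτ, hint⟩, u1⟩,
    ⟨(v - ε • u, 1 / ε), by simp [DU], ⟨τ, hτ, hint⟩, u1⟩⟩

/-- the direction `v + δ u` at the bottom -/
theorem UU.in_bot (H : PP B f f) (hU : UU B f l k u v TL TR BL BR) {c : E}
    (hc : c ∈ interior B) {δ : ℝ} (hδ : 0 < δ) (hδ' : δ * |k c - k BL| ≤ l c - l BR) {x : E}
    (hx : x ∈ B) (hlx : l x = l BR) (hn : ∀ n, NN B x n → n v ≤ 0) : IN B x (v + δ • u) := by
  rw [IN_iff H.toPF hx]
  intro n hnn
  have h1 := hn n hnn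
  have h2 : n c < n x := lt_max H.toPF hnn.1 hnn.2 hc
  have h3 : 0 < l c - l BR := by
    have := (hU.opp.lt_int H.toPF hc).1
    rw [hU.botL] at this
    linarith
  have h4 := hU.BLk x hx hlx
  have h5 : δ * (k c - k x) ≤ l c - l BR := by
    have h6 : k c - k x ≤ |k c - k BL| := by
      have := le_abs_self (k c - k BL)
      linarith
    have := mul_le_mul_of_nonneg_left h6 hδ.le
    linarith
  have e : (l c - l BR) • (v + δ • u) = δ • (c - x) + ((l c - l BR) - δ * (k c - k x)) • v := by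
    apply hU.toDual.ext
    · simp only [map_add, map_smul, map_sub, smul_eq_mul, hU.lv, hU.lu, hlx]
      ring
    · simp only [map_add, map_smul, map_sub, smul_eq_mul, hU.kv, hU.ku]
      ring
  have h7 : (l c - l BR) * n (v + δ • u) = δ * (n c - n x) +
      ((l c - l BR) - δ * (k c - k x)) * n v := by
    have := congrArg (fun y => n y) e
    simpa only [map_add, map_smul, map_sub, smul_eq_mul] using this
  have h8 : δ * (n c - n x) < 0 := mul_neg_of_pos_of_neg hδ (by linarith)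
  have h9 : ((l c - l BR) - δ * (k c - k x)) * n v ≤ 0 :=
    mul_nonpos_of_nonneg_of_nonpos (by linarith) h1
  by_contra hcon
  push Not at hcon
  have := mul_nonneg h3.le hcon
  linarith

theorem lemU (H : PP B f f) (hU : UU B f l k u v TL TR BL BR) : Good7 B f := by
  have hm := hU.mpos H
  have hΔ := hU.delta H
  obtain ⟨c, hc⟩ := H.int
  have hlc : 0 < l c - l BR := by
    have := (hU.opp.lt_int H.toPF hc).1
    rw [hU.botL] at this
    linarith
  obtain ⟨δ, hδ, hδ'⟩ : ∃ δ : ℝ, 0 < δ ∧ δ * |k c - k BL| ≤ l c - l BR := by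
    refine ⟨(l c - l BR) / (|k c - k BL| + 1), by positivity, ?_⟩
    rw [div_mul_eq_mul_div, div_le_iff₀ (by positivity)]
    nlinarith [abs_nonneg (k c - k BL)]
  obtain ⟨ε₁, hε₁, hrim⟩ := hU.rim H δ
  have hgc : Continuous (gap l k TL BL) := gap_cont
  have hlc' : Continuous l := cont_lin l
  -- it suffices to treat points which are not rim points
  suffices hs : ∀ x ∈ B, ∃ r : ℝ, 0 < r ∧ ∀ z ∈ B, ‖z - x‖ < r → ∀ ε : ℝ, 0 < ε → ε < r →
      NR B f (DU u v δ ε) z by
    refine good7_loc H.toPF (fun ε => DU u v δ ε) (fun ε => by simp [DU]) fun x hx => ?_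
    obtain ⟨r, hr, hh⟩ := hs x hx
    refine ⟨min r ε₁, lt_min hr hε₁, fun z hz hzx ε hε hεr => ?_⟩
    apply cov_of H.toPF hz
    · intro hrz
      exact hrim ε hε (hεr.trans_le (min_le_right _ _)) z hz hrz.1
    · intro _
      exact hh z hz (hzx.trans_le (min_le_left _ _)) ε hε (hεr.trans_le (min_le_left _ _))
  intro x hx
  have bottom : l x = l BR → (∀ n, NN B x n → n v ≤ 0) →
      ∃ r : ℝ, 0 < r ∧ ∀ z ∈ B, ‖z - x‖ < r → ∀ ε : ℝ, 0 < ε → ε < r →
        NR B f (DU u v δ ε) z := by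
    intro hlx hn
    obtain ⟨r, hr, hh⟩ := steep_fixed H.toPF hx (hU.in_bot H hc hδ hδ' hx hlx hn)
    refine ⟨r, hr, fun z hz hzx ε hε hεr => ?_⟩
    obtain ⟨b1, b2, _⟩ := hh z hz hzx ε hε hεr
    exact ⟨⟨(v + δ • u, -(1 / ε)), by simp [DU], b1, b2⟩,
      ⟨(v + δ • u, 1 / ε), by simp [DU], b1, b2⟩⟩
  rcases lt_or_eq_of_le (hU.bot x hx) with h1 | h1
  · rcases lt_or_eq_of_le (hU.top x hx) with h2 | h2
    · -- strictly between the levels
      by_cases hv : IN B x v
      · obtain ⟨τ, hτ, hint⟩ := hv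
        obtain ⟨r, hr, hh⟩ := near x u v τ (isOpen_interior.mem_nhds hint)
        exact UU.steepA H δ hτ ⟨r, hr, fun z _ hzx ε hε hεr => hh z hzx ε hε hεr⟩
      · have hg := hU.gpos_mid H hx h1 h2 hv
        obtain ⟨κ, hκ, hκ1, hκ2⟩ : ∃ κ : ℝ, 0 < κ ∧ l BR + κ < l x ∧ l x < l TR - κ :=
          ⟨min ((l x - l BR) / 2) ((l TR - l x) / 2), lt_min (by linarith) (by linarith),
            by have := min_le_left ((l x - l BR) / 2) ((l TR - l x) / 2); linarith,
            by have := min_le_right ((l x - l BR) / 2) ((l TR - l x) / 2); linarith⟩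
        obtain ⟨ε₀, Λ, hε₀, hΛ, hch⟩ := hU.chord H hκ
        have e1 : ∀ᶠ z in 𝓝 x, 0 < gap l k TL BL z := hgc.continuousAt.eventually (lt_mem_nhds hg)
        have e2 : ∀ᶠ z in 𝓝 x, l BR + κ < l z := hlc'.continuousAt.eventually (lt_mem_nhds hκ1)
        have e3 : ∀ᶠ z in 𝓝 x, l z < l TR - κ := hlc'.continuousAt.eventually (gt_mem_nhds hκ2)
        have e4 := e1.and (e2.and e3)
        rw [Metric.eventually_nhds_iff] at e4
        obtain ⟨r, hr, hh⟩ := e4
        refine ⟨min r ε₀, lt_min hr hε₀, fun z hz hzx ε hε hεr => ?_⟩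
        obtain ⟨g1, g2, g3⟩ := hh (y := z) (by
          rw [dist_eq_norm]; exact hzx.trans_le (min_le_left _ _))
        obtain ⟨a1, a2⟩ := hch ε hε (hεr.trans_le (min_le_right _ _)) z hz g1
        obtain ⟨in1, t, ht, _, m1, f1⟩ := a1 g2.le
        obtain ⟨in2, t', ht', _, m2, f2⟩ := a2 g3.le
        have hfz := hU.fTL z hz
        have p1 := mul_pos ht hε
        have p2 := mul_pos ht' hε
        refine ⟨⟨(-v + ε • u, -ε), by simp [DU], in2, ⟨t', ht', m2, ?_⟩⟩,
          ⟨(-v - ε • u, ε), by simp [DU], in1, ⟨t, ht, m1, ?_⟩⟩⟩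
        · show f z + t' * -ε < f (z + t' • (-v + ε • u))
          rw [f2]; linarith
        · show f z + t * -ε < f (z + t • (-v - ε • u))
          rw [f1]; linarith
    · -- the top face
      by_cases hxT : x = TR
      · subst hxT
        have hg := hU.gap_TR H
        obtain ⟨ε₀, Λ, hε₀, hΛ, hch⟩ := hU.chord H (κ := (l x - l BR) / 2) (by linarith)
        have e1 : ∀ᶠ z in 𝓝 x, 0 < gap l k TL BL z := hgc.continuousAt.eventually (lt_mem_nhds hg)
        have e2 : ∀ᶠ z in 𝓝 x, l BR + (l x - l BR) / 2 < l z :=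
          hlc'.continuousAt.eventually (lt_mem_nhds (by linarith))
        have e3 : ∀ᶠ z in 𝓝[B] x, f z < f TL / 2 := H.fusc x hx (f TL / 2) (by
          have h9 := hU.fTR
          show f x < f TL / 2
          linarith)
        rw [eventually_nhdsWithin_iff] at e3
        have e4 := e1.and (e2.and e3)
        rw [Metric.eventually_nhds_iff] at e4
        obtain ⟨r, hr, hh⟩ := e4
        refine ⟨min r (min ε₀ (f TL / 2 / Λ)), lt_min hr (lt_min hε₀ (by positivity)),
          fun z hz hzx ε hε hεr => ?_⟩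
        obtain ⟨g1, g2, g3⟩ := hh (y := z) (by
          rw [dist_eq_norm]; exact hzx.trans_le (min_le_left _ _))
        have hεr' := hεr.trans_le (min_le_right _ _)
        obtain ⟨in1, t, ht, htΛ, m1, f1⟩ :=
          (hch ε hε (hεr'.trans_le (min_le_left _ _)) z hz g1).1 g2.le
        have c2 : ε * Λ < f TL / 2 := by
          have := hεr'.trans_le (min_le_right _ _)
          rwa [lt_div_iff₀ hΛ] at this
        have c3 : t * ε ≤ Λ * ε := mul_le_mul_of_nonneg_right htΛ hε.le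
        have p1 := mul_pos ht hε
        have g4 := g3 hz
        refine ⟨⟨(-v - ε • u, ε), by simp [DU], in1, ⟨t, ht, m1, ?_⟩⟩,
          ⟨(-v - ε • u, ε), by simp [DU], in1, ⟨t, ht, m1, ?_⟩⟩⟩
        · show f z + t * ε < f (z + t • (-v - ε • u))
          rw [f1]; linarith
        · show f z + t * -ε < f (z + t • (-v - ε • u))
          rw [f1]; linarith
      · obtain ⟨r, hr, τ, hτ, hh⟩ := hU.opp.corner_one H.toPF hx hxT h2
        have hτ' : 0 < τ := by
          have h3 := hh x hx (by simpa using hr) (r / 2) (by linarith) (by linarith)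
          have h4 := hU.top _ (interior_subset h3)
          rw [map_add, map_smul, map_sub, map_smul, hU.lv, hU.lu, smul_eq_mul, smul_eq_mul,
            h2] at h4
          have h5 : 0 ≤ τ * (r / 2) := by linarith
          rcases lt_or_gt_of_ne hτ with h6 | h6
          · have := mul_neg_of_neg_of_pos h6 (show 0 < r / 2 by linarith)
            linarith
          · exact h6
        exact UU.steepA H δ hτ' ⟨r, hr, hh⟩
  · -- the bottom face
    by_cases hxB : x = BR
    · subst hxB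
      rcases hU.fBR with h0 | h0
      · have hg := hU.gap_BR H h0
        obtain ⟨ε₀, Λ, hε₀, hΛ, hch⟩ := hU.chord H (κ := (l TR - l x) / 2) (by linarith)
        have e1 : ∀ᶠ z in 𝓝 x, 0 < gap l k TL BL z := hgc.continuousAt.eventually (lt_mem_nhds hg)
        have e2 : ∀ᶠ z in 𝓝 x, l z < l TR - (l TR - l x) / 2 :=
          hlc'.continuousAt.eventually (gt_mem_nhds (by linarith))
        have e3 : ∀ᶠ z in 𝓝[B] x, f z < f TL / 2 := H.fusc x hx (f TL / 2) (by
          show f x < f TL / 2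
          linarith)
        rw [eventually_nhdsWithin_iff] at e3
        have e4 := e1.and (e2.and e3)
        rw [Metric.eventually_nhds_iff] at e4
        obtain ⟨r, hr, hh⟩ := e4
        refine ⟨min r (min ε₀ (f TL / 2 / Λ)), lt_min hr (lt_min hε₀ (by positivity)),
          fun z hz hzx ε hε hεr => ?_⟩
        obtain ⟨g1, g2, g3⟩ := hh (y := z) (by
          rw [dist_eq_norm]; exact hzx.trans_le (min_le_left _ _))
        have hεr' := hεr.trans_le (min_le_right _ _)
        obtain ⟨in1, t, ht, htΛ, m1, f1⟩ :=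
          (hch ε hε (hεr'.trans_le (min_le_left _ _)) z hz g1).2 g2.le
        have c2 : ε * Λ < f TL / 2 := by
          have := hεr'.trans_le (min_le_right _ _)
          rwa [lt_div_iff₀ hΛ] at this
        have c3 : t * ε ≤ Λ * ε := mul_le_mul_of_nonneg_right htΛ hε.le
        have p1 := mul_pos ht hε
        have g4 := g3 hz
        refine ⟨⟨(-v + ε • u, -ε), by simp [DU], in1, ⟨t, ht, m1, ?_⟩⟩,
          ⟨(-v + ε • u, -ε), by simp [DU], in1, ⟨t, ht, m1, ?_⟩⟩⟩
        · show f z + t * -ε < f (z + t • (-v + ε • u))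
          rw [f1]; linarith
        · show f z + t * - -ε < f (z + t • (-v + ε • u))
          rw [f1]; linarith
      · exact bottom rfl h0
    · refine bottom h1.symm fun n hn => ?_
      have h3 : k x < k BR := by
        refine lt_of_le_of_ne (hU.BRk x hx h1.symm) fun h => hxB (hU.toDual.ext h1.symm h)
      have h4 := hn.2 _ hU.BRm
      have e : BR = x + (k BR - k x) • v := by
        apply hU.toDual.ext
        · rw [map_add, map_smul, hU.lv, smul_zero, add_zero]; exact h1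
        · rw [map_add, map_smul, hU.kv, smul_eq_mul]; ring
      rw [e, map_add, map_smul, smul_eq_mul] at h4
      by_contra hcon
      push Not at hcon
      have := mul_pos (show 0 < k BR - k x by linarith) hcon
      linarith

end Pool.Agent.Lib.MP_5e7226_co.MM
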