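import Pool.Agent.Lib.MP_5e7226_co.MM.Cone
import Pool.Agent.Lib.MP_5e7226_co.MM.LemU
import Pool.Agent.Lib.MP_5e7226_co.MM.Alpha
import Pool.Agent.Lib.MP_5e7226_co.MM.Beta2
import Pool.Agent.Lib.MP_5e7226_co.MM.Beta1
import Pool.Agent.Lib.MP_5e7226_co.MM.Beta7

/-! Row M11. -/

set_option autoImplicit false

open Set Filter Topology

namespace Pool.Agent.Lib.MP_5e7226_co.MM

open PS CM

variable {B : Set E} {f : E → ℝ}

/-- M11. The rim is lit by one direction, or all is well. -/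
theorem no_opposite (H : PP B f f) (hR : ∃ x ∈ B, f x = 0)
    (hA : ∀ P, PSet B f f P → ¬ Rim f f P) :
    Good7 B f ∨ ∃ b : E, ∀ z ∈ B, f z = 0 → IN B z b := by
  by_cases hbeta : ∃ P a, PSet B f f P ∧ IN B P a ∧ UP B f P a 0
  · obtain ⟨P, a, hP, h1, h2⟩ := hbeta
    exact Or.inl (beta7 H hA hP h1 h2)
  push Not at hbeta
  have hM : ∀ P, PSet B f f P → ∀ x ∈ B, f x ≤ f P := fun P hP =>
    max_of_not_up H hP.mem (fun a ha => hbeta P a hP ha)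
  by_cases h3 : ∃ b : E, ∀ n, TH B f n → n b < 0
  · obtain ⟨b, hb⟩ := h3
    exact Or.inr ⟨b, fun z hz hfz => (IN_iff H.toPF hz).2 fun n hn => hb n ⟨z, hz, hfz, hn⟩⟩
  left
  obtain ⟨y, hy, hfy⟩ := hR
  obtain ⟨l, hl0, hl⟩ := exists_support H hy ⟨hfy, hfy⟩
  by_cases hα : ∃ n, TH B f n ∧ TH B f (-n)
  · obtain ⟨n, h1, h2⟩ := hα
    obtain ⟨l, k, u, v, TL, TR, BL, BR, hU⟩ := alpha H hA hM h1 h2
    exact lemU H hU
  push Not at hα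
  rcases cone (TH B f) ⟨l, y, hy, hfy, hl0, hl⟩ (fun n ⟨_, _, _, hn⟩ => hn.1)
    (fun n hn c hc => hn.smul hc) h3 with ⟨n, h1, h2⟩ | ⟨l₁, l₂, l₃, h1, h2, h4, hs⟩ |
      ⟨l, k, u, v, hl, hd, hv, hp⟩
  · exact absurd h2 (hα n h1)
  · exact beta1 H hA hM hα h1 h2 h4 hs
  · obtain ⟨TL, TR, BL, BR, hU⟩ := beta2 H hA hM hα hl hd hv hp
    exact lemU H hU

end Pool.Agent.Lib.MP_5e7226_co.MM
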