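import Pool.Agent.Lib.MP_5e7226_co.MM.ParG
import Pool.Agent.Lib.MP_5e7226_co.MM.Main
import Pool.Agent.Lib.MP_5e7226_co.CM.SqN
import Pool.Agent.Lib.MP_5e7226_co.CM.LeviG
import Pool.Agent.Lib.MP_5e7226_co.CM.MainG

/-! Bodies with a mirror: seven directions suffice, except for parallelepipeds. -/

set_option autoImplicit false

open Set Filter Topology

namespace Pool.Agent.Lib.MP_5e7226_co.MM

open PS

theorem main7 {B : Set E} {f : E → ℝ} (H : PP B f f) : CM.Good7 B f ∨ MM.ParG B f := by
  rcases CM.main7g (fun B f H hR hA => no_opposite H hR hA)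
    (fun f H h1 h3 => CM.sqN H h1 h3) (fun B f H => CM.levi H) H with h | ⟨o, v, w, hi, hB, hf⟩
  · exact Or.inl h
  · refine Or.inr ⟨o, v, w, hi, by simpa only [add_assoc] using hB, ?_⟩
    simpa only [add_assoc] using hf

end Pool.Agent.Lib.MP_5e7226_co.MM
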