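import Pool.Agent.Lib.MP_5e7226_co.MM.Coord
import Pool.Agent.Lib.MP_5e7226_co.MM.MainF
import Pool.Agent.Lib.MP_5e7226_co.RT.Final
import Pool.Agent.Lib.MP_5e7226_co.IN.Res

/-! Bodies with a mirror: the equality cases. -/

set_option autoImplicit false

open Set Filter Topology
open scoped InnerProductSpace

namespace Pool.Agent.Lib.MP_5e7226_co.MM

open PS RT CM

theorem core7 {K : Set Q3} (hK : MB K) : Served K 7 ∨ Par K := by
  rcases main7 (mbody1 hK).2.2.2.2.2 with h | h
  · exact Or.inl (mbody2 hK h)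
  · exact Or.inr (mbody3 hK h)

theorem good_of_MB {K : Set E3} {o : E3} (hK : HX.Body o K) {b : Module.Basis (Fin 3) ℝ E3}
    (hB : MB (cb b o K)) : RG.Good K o := by
  have h1 := core7 hB
  have h2 := core7 (MB_pol hB)
  refine ⟨?_, ?_, ?_, ?_⟩
  · rcases h2 with h | h
    · exact TR.sep_mono (by norm_num) (sep_of_served hK h)
    · exact sep_of_served hK (served8_of_par h)
  · intro hn
    rcases h2 with h | h
    · exact absurd (sep_of_served hK h) hn
    · exact cross_of_par hK h
  · rcases h1 with h | h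
    · exact TR.illum_mono (by norm_num) (by norm_num) (illum_of_served hK h)
    · exact illum_of_served hK (served8_of_par h)
  · intro hn
    rcases h1 with h | h
    · exact absurd (illum_of_served hK h) hn
    · exact cube_of_par hK h

/-- the fixed space of a reflection is a plane -/
theorem finrank_fix {a u : E3} (h : ⟪u, a⟫_ℝ = 2) {g : E3 →ₗ[ℝ] E3}
    (hg : ∀ x, g x = x - ⟪u, x⟫_ℝ • a) : Module.finrank ℝ (r14P g) = 2 := by
  have ha : a ≠ 0 := by
    rintro rfl
    simp at h
  have hu : u ≠ 0 := by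
    rintro rfl
    simp at h
  have hP : r14P g = (ℝ ∙ u)ᗮ := by
    ext x
    rw [r14_memP, hg, Submodule.mem_orthogonal_singleton_iff_inner_right]
    constructor
    · intro hx
      have h1 : ⟪u, x⟫_ℝ • a = 0 := by
        have := sub_eq_self.1 hx
        exact this
      exact (smul_eq_zero.1 h1).resolve_right ha
    · intro hx
      rw [hx, zero_smul, sub_zero]
  rw [hP]
  have hdim : Module.finrank ℝ E3 = 2 + 1 := by simp
  haveI : Fact (Module.finrank ℝ E3 = 2 + 1) := ⟨hdim⟩
  exact Submodule.finrank_orthogonal_span_singleton hu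

/-- Bodies with a mirror. -/
theorem good_of_mirror {K : Set E3} {o : E3} (hconv : Convex ℝ K) (hcomp : IsCompact K)
    (ho : o ∈ interior K) {a u : E3} (h : ⟪u, a⟫_ℝ = 2)
    (hg : ∀ x, o + x ∈ K ↔ o + (x - ⟪u, x⟫_ℝ • a) ∈ K) : RG.Good K o := by
  have hK : HX.Body o K := ⟨hconv, hcomp, ho⟩
  let g : E3 →ₗ[ℝ] E3 := LinearMap.id - (innerSL ℝ u).toLinearMap.smulRight a
  have hgx : ∀ x, g x = x - ⟪u, x⟫_ℝ • a := fun x => rfl
  have hsq : ∀ x, g (g x) = x := by
    intro x
    rw [hgx, hgx, inner_sub_right, inner_smul_right, h, sub_sub, ← add_smul]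
    have : ⟪u, x⟫_ℝ + (⟪u, x⟫_ℝ - ⟪u, x⟫_ℝ * 2) = 0 := by ring
    rw [this, zero_smul, sub_zero]
  obtain ⟨b, hb⟩ := exists_MB hconv hcomp ho (g := g) (fun x => by rw [hgx]; exact hg x) hsq
    (finrank_fix h hgx)
  exact good_of_MB hK hb

end Pool.Agent.Lib.MP_5e7226_co.MM
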