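import Pool.Agent.Lib.MP_5e7226_co.MM.Defs

/-! Row M2 (helper16). Lemma U. -/

set_option autoImplicit false

open Set Filter Topology

namespace Pool.Agent.Lib.MP_5e7226_co.MM

open PS CM

variable {B : Set E} {f : E → ℝ} {l k : E →ₗ[ℝ] ℝ} {u v TL TR BL BR : E}

/-- horizontal position to the right of the chord from `BL` to `TL` (times the height) -/
def gap (l k : E →ₗ[ℝ] ℝ) (TL BL z : E) : ℝ :=
  (l TL - l BL) * (k z - k BL) - (l z - l BL) * (k TL - k BL)

theorem UU.delta (H : PP B f f) (hU : UU B f l k u v TL TR BL BR) : l BR < l TR := by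
  obtain ⟨c, hc⟩ := H.int
  obtain ⟨t, ht, h1⟩ := H.toPF.in_of_int hc u
  have h2 := hU.top _ (interior_subset h1)
  have h3 := hU.bot _ (interior_subset hc)
  rw [map_add, map_smul, hU.lu] at h2
  simp only [smul_eq_mul] at h2
  linarith

theorem UU.mpos (H : PP B f f) (hU : UU B f l k u v TL TR BL BR) : 0 < f TL := by
  obtain ⟨c, hc⟩ := H.int
  exact (H.fpos c hc).trans_le (hU.fTL _ (interior_subset hc))

theorem UU.fBLe (hU : UU B f l k u v TL TR BL BR) : f BL = f TL :=
  le_antisymm (hU.fTL _ hU.BLm) (hU.fBL _ hU.TLm)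

theorem UU.kT (H : PP B f f) (hU : UU B f l k u v TL TR BL BR) : k TL < k TR := by
  refine lt_of_le_of_ne (hU.TLk _ hU.TRm rfl) fun h => ?_
  have h1 : TL = TR := hU.toDual.ext hU.topL h
  have h2 := hU.mpos H
  rw [h1, hU.fTR] at h2
  exact lt_irrefl _ h2

theorem UU.opp (hU : UU B f l k u v TL TR BL BR) : Opp B TR BL l k u v where
  toDual := hU.toDual
  ymem := hU.TRm
  Pmem := hU.BLm
  le := hU.top
  ge := fun x hx => by rw [hU.botL]; exact hU.bot x hx
  ylt := fun x hx h1 h2 => lt_of_le_of_ne (hU.TRk x hx h1) fun h => h2 (hU.toDual.ext h1 h)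
  Pgt := fun x hx h1 h2 => by
    have h3 : l x = l BR := by rw [h1, hU.botL]
    exact lt_of_le_of_ne (hU.BLk x hx h3) fun h => h2 (hU.toDual.ext h1 h.symm)

/-- the chord lemma -/
theorem UU.land (H : PP B f f) (hU : UU B f l k u v TL TR BL BR) {z : E} (hz : z ∈ B)
    (hg : 0 < gap l k TL BL z) {σ t : ℝ} (ht : 0 < t)
    (hlam : t * ((l TL - l BL) + σ * (k TL - k BL)) = gap l k TL BL z)
    (h1 : l BR < l z + t * σ) (h2 : l z + t * σ < l TR) :
    IN B z (-v + σ • u) ∧ z + t • (-v + σ • u) ∈ B ∧ f (z + t • (-v + σ • u)) = f TL := by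
  have hΔ := hU.delta H
  have hΔ' : 0 < l TL - l BL := by rw [hU.topL, hU.botL]; linarith
  set q : ℝ := (l z + t * σ - l BL) / (l TL - l BL) with hq
  have hq0 : 0 < q := div_pos (by rw [hU.botL]; linarith) hΔ'
  have hq1 : q < 1 := by rw [hq, div_lt_one hΔ', hU.topL]; linarith
  have hqe : q * (l TL - l BL) = l z + t * σ - l BL := by rw [hq, div_mul_cancel₀ _ hΔ'.ne']
  have e : z + t • (-v + σ • u) = (1 - q) • BL + q • TL := by
    apply hU.toDual.ext
    · simp only [map_add, map_smul, map_neg, smul_eq_mul, hU.lv, hU.lu]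
      linear_combination (-1 : ℝ) * hqe
    · simp only [map_add, map_smul, map_neg, smul_eq_mul, hU.kv, hU.ku]
      have h3 : (l TL - l BL) * (k z + t * (-1 + σ * 0)) =
          (l TL - l BL) * ((1 - q) * k BL + q * k TL) := by
        have h4 : (l TL - l BL) * (k z - t - k BL) = (l z + t * σ - l BL) * (k TL - k BL) := by
          simp only [gap] at hlam
          linear_combination (-1 : ℝ) * hlam
        rw [← hqe] at h4
        linear_combination h4
      exact mul_left_cancel₀ hΔ'.ne' h3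
  have hmem : (1 - q) • BL + q • TL ∈ B := H.conv hU.BLm hU.TLm (by linarith) hq0.le (by ring)
  refine ⟨?_, by rw [e]; exact hmem, ?_⟩
  · rw [IN_iff H.toPF hz]
    rintro n ⟨hn0, hn⟩
    by_contra hcon
    push Not at hcon
    have a1 := hn _ hU.BLm
    have a2 := hn _ hU.TLm
    have a3 : n z ≤ (1 - q) * n BL + q * n TL := by
      have h3 : n (z + t • (-v + σ • u)) = (1 - q) * n BL + q * n TL := by rw [e]; simp
      rw [map_add, map_smul, smul_eq_mul] at h3
      have := mul_nonneg ht.le hcon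
      linarith
    have a4 : (1 - q) * (n z - n BL) + q * (n z - n TL) ≤ 0 := by linarith
    have a5 : 0 ≤ (1 - q) * (n z - n BL) := mul_nonneg (by linarith) (by linarith)
    have a6 : 0 ≤ q * (n z - n TL) := mul_nonneg hq0.le (by linarith)
    have b1 : n z - n BL = 0 := by
      have : (1 - q) * (n z - n BL) = 0 := by linarith
      exact (mul_eq_zero.1 this).resolve_left (by linarith)
    have b2 : n z - n TL = 0 := by
      have : q * (n z - n TL) = 0 := by linarith
      exact (mul_eq_zero.1 this).resolve_left hq0.ne'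
    have dec : ∀ x, n x = l x * n u + k x * n v := fun x => by
      have h3 := hU.dec x
      conv_lhs => rw [← h3]
      rw [map_add, map_smul, map_smul, smul_eq_mul, smul_eq_mul]
    rw [dec z, dec BL] at b1
    rw [dec z, dec TL] at b2
    have b3 : gap l k TL BL z * n v = 0 := by
      simp only [gap]
      linear_combination (l TL - l BL) * b1 - (l z - l BL) * (b1 - b2)
    have hv : n v = 0 := (mul_eq_zero.1 b3).resolve_left hg.ne'
    have hu : n u = 0 := by
      rw [hv] at b1 b2
      have : (l TL - l BL) * n u = 0 := by linear_combination b1 - b2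
      exact (mul_eq_zero.1 this).resolve_left hΔ'.ne'
    apply hn0
    apply LinearMap.ext
    intro x
    rw [dec x, hu, hv]; simp
  · rw [e]
    apply le_antisymm (hU.fTL _ hmem)
    have h3 := H.fconc.2 hU.BLm hU.TLm (show 0 ≤ 1 - q by linarith) hq0.le (by ring)
    rw [hU.fBLe] at h3
    simp only [smul_eq_mul] at h3
    linarith

theorem gap_cont : Continuous (gap l k TL BL) := by
  have h1 := cont_lin l
  have h2 := cont_lin k
  unfold gap
  fun_prop

/-- the chord lemma, uniformly -/
theorem UU.chord (H : PP B f f) (hU : UU B f l k u v TL TR BL BR) {κ : ℝ} (hκ : 0 < κ) :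
    ∃ ε₀ Λ : ℝ, 0 < ε₀ ∧ 0 < Λ ∧ ∀ ε : ℝ, 0 < ε → ε < ε₀ → ∀ z ∈ B, 0 < gap l k TL BL z →
      (l BR + κ ≤ l z → IN B z (-v - ε • u) ∧ ∃ t : ℝ, 0 < t ∧ t ≤ Λ ∧
        z + t • (-v - ε • u) ∈ B ∧ f (z + t • (-v - ε • u)) = f TL) ∧
      (l z ≤ l TR - κ → IN B z (-v + ε • u) ∧ ∃ t : ℝ, 0 < t ∧ t ≤ Λ ∧
        z + t • (-v + ε • u) ∈ B ∧ f (z + t • (-v + ε • u)) = f TL) := by
  have hΔ := hU.delta H
  have hΔ' : 0 < l TL - l BL := by rw [hU.topL, hU.botL]; linarith
  obtain ⟨G, hG⟩ := H.cpt.bddAbove_image (gap_cont (l := l) (k := k) (TL := TL) (BL := BL)).continuousOn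
  have hG' : ∀ z ∈ B, gap l k TL BL z ≤ |G| + 1 := fun z hz => by
    have h1 := hG ⟨z, hz, rfl⟩
    have h2 := le_abs_self G
    linarith
  have hG0 : 0 < |G| + 1 := by positivity
  set S : ℝ := |k TL - k BL| with hS
  have hS0 : 0 ≤ S := abs_nonneg _
  set Λ : ℝ := 2 * (|G| + 1) / (l TL - l BL) with hΛ
  have hΛ0 : 0 < Λ := by positivity
  refine ⟨min ((l TL - l BL) / (2 * (S + 1))) (κ / (2 * Λ)), Λ, lt_min (by positivity)
    (by positivity), hΛ0, fun ε hε hε₀ z hz hg => ?_⟩
  have c1 : ε * (2 * (S + 1)) < l TL - l BL := by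
    have := hε₀.trans_le (min_le_left _ _)
    rwa [lt_div_iff₀ (by positivity)] at this
  have c2 : ε * (2 * Λ) < κ := by
    have := hε₀.trans_le (min_le_right _ _)
    rwa [lt_div_iff₀ (by positivity)] at this
  have c3 : ε * S ≤ (l TL - l BL) / 2 := by nlinarith
  have c4 : |ε * (k TL - k BL)| ≤ (l TL - l BL) / 2 := by
    rw [abs_mul, abs_of_pos hε]; exact c3
  rw [abs_le] at c4
  -- the landing time
  have key : ∀ σ : ℝ, σ = ε ∨ σ = -ε → ∃ t : ℝ, 0 < t ∧ t ≤ Λ ∧
      t * ((l TL - l BL) + σ * (k TL - k BL)) = gap l k TL BL z := by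
    intro σ hσ
    have c5 : (l TL - l BL) / 2 ≤ (l TL - l BL) + σ * (k TL - k BL) := by
      rcases hσ with rfl | rfl
      · linarith [c4.1]
      · linarith [c4.2]
    have c6 : 0 < (l TL - l BL) + σ * (k TL - k BL) := by linarith
    refine ⟨gap l k TL BL z / ((l TL - l BL) + σ * (k TL - k BL)), div_pos hg c6, ?_,
      div_mul_cancel₀ _ c6.ne'⟩
    rw [div_le_iff₀ c6, hΛ]
    have c7 := hG' z hz
    have c8 : 2 * (|G| + 1) / (l TL - l BL) * ((l TL - l BL) / 2) ≤
        2 * (|G| + 1) / (l TL - l BL) * ((l TL - l BL) + σ * (k TL - k BL)) :=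
      mul_le_mul_of_nonneg_left c5 (by positivity)
    have c9 : 2 * (|G| + 1) / (l TL - l BL) * ((l TL - l BL) / 2) = |G| + 1 := by
      field_simp
    linarith
  constructor
  · intro hl
    obtain ⟨t, ht, htΛ, hte⟩ := key (-ε) (Or.inr rfl)
    have d1 : t * ε < κ := by
      have : t * ε ≤ Λ * ε := mul_le_mul_of_nonneg_right htΛ hε.le
      nlinarith
    have d2 : 0 < t * ε := mul_pos ht hε
    have d3 := hU.top z hz
    obtain ⟨r1, r2, r3⟩ := hU.land H hz hg ht hte (by linarith) (by linarith)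
    have e : (-v + (-ε) • u) = -v - ε • u := by rw [neg_smul, sub_eq_add_neg]
    rw [e] at r1 r2 r3
    exact ⟨r1, t, ht, htΛ, r2, r3⟩
  · intro hl
    obtain ⟨t, ht, htΛ, hte⟩ := key ε (Or.inl rfl)
    have d1 : t * ε < κ := by
      have : t * ε ≤ Λ * ε := mul_le_mul_of_nonneg_right htΛ hε.le
      nlinarith
    have d2 : 0 < t * ε := mul_pos ht hε
    have d3 := hU.bot z hz
    obtain ⟨r1, r2, r3⟩ := hU.land H hz hg ht hte (by linarith) (by linarith)
    exact ⟨r1, t, ht, htΛ, r2, r3⟩

/-- to the left of the chord the direction `v` leads into the interior -/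
theorem UU.gpos_mid (H : PP B f f) (hU : UU B f l k u v TL TR BL BR) {z : E} (hz : z ∈ B)
    (h1 : l BR < l z) (h2 : l z < l TR) (hv : ¬ IN B z v) : 0 < gap l k TL BL z := by
  by_contra hg
  push Not at hg
  have hΔ := hU.delta H
  have hΔ' : 0 < l TL - l BL := by rw [hU.topL, hU.botL]; linarith
  obtain ⟨τ, hτ, hint⟩ := line_int H.toPF hU.toDual hU.TRm hU.BLm (x := z)
    (by rw [hU.botL]; exact h1) h2
  rcases lt_or_gt_of_ne hτ with hτ' | hτ'
  · set q : ℝ := (l z - l BL) / (l TL - l BL) with hq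
    have hq0 : 0 < q := div_pos (by rw [hU.botL]; linarith) hΔ'
    have hq1 : q < 1 := by rw [hq, div_lt_one hΔ', hU.topL]; linarith
    have hqe : q * (l TL - l BL) = l z - l BL := by rw [hq, div_mul_cancel₀ _ hΔ'.ne']
    have hmem : (1 - q) • BL + q • TR ∈ B := H.conv hU.BLm hU.TRm (by linarith) hq0.le (by ring)
    set μ : ℝ := (1 - q) * k BL + q * k TR - k z with hμ
    have hμ0 : 0 < μ := by
      have h3 : q * k TL < q * k TR := mul_lt_mul_of_pos_left (hU.kT H) hq0
      have h4 : (l TL - l BL) * (k z - (1 - q) * k BL - q * k TL) = gap l k TL BL z := by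
        simp only [gap]
        linear_combination (-(k TL - k BL)) * hqe
      have h5 : k z - (1 - q) * k BL - q * k TL ≤ 0 := by
        by_contra h6
        push Not at h6
        have := mul_pos hΔ' h6
        linarith
      rw [hμ]; linarith
    have e : (1 - q) • BL + q • TR = z + μ • v := by
      apply hU.toDual.ext
      · simp only [map_add, map_smul, smul_eq_mul, hU.lv]
        rw [← hU.topL]
        linear_combination hqe
      · simp only [map_add, map_smul, smul_eq_mul, hU.kv, hμ]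
        ring
    apply hv
    have h7 : 0 < μ - τ := by linarith
    have h8 := H.toPF.seg_int hint hmem (t := μ / (μ - τ) / 2) (by positivity)
      (by rw [div_div, div_le_one (by positivity)]; linarith)
    refine ⟨μ / 2, by positivity, ?_⟩
    rw [e] at h8
    have e2 : (1 - μ / (μ - τ) / 2) • (z + μ • v) + (μ / (μ - τ) / 2) • (z + τ • v) =
        z + (μ / 2) • v := by
      apply hU.toDual.ext
      · simp only [map_add, map_smul, smul_eq_mul, hU.lv]
        ring
      · simp only [map_add, map_smul, smul_eq_mul, hU.kv]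
        field_simp
        ring
    rwa [e2] at h8
  · exact hv ⟨τ, hτ', hint⟩

theorem UU.gap_TR (H : PP B f f) (hU : UU B f l k u v TL TR BL BR) : 0 < gap l k TL BL TR := by
  have hΔ := hU.delta H
  have h1 := hU.kT H
  have e : gap l k TL BL TR = (l TR - l BR) * (k TR - k TL) := by
    simp only [gap]
    rw [hU.topL, hU.botL]; ring
  rw [e]
  exact mul_pos (by linarith) (by linarith)

theorem UU.gap_BR (H : PP B f f) (hU : UU B f l k u v TL TR BL BR) (h0 : f BR = 0) :
    0 < gap l k TL BL BR := by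
  have hΔ := hU.delta H
  have h1 : k BL < k BR := by
    refine lt_of_le_of_ne (hU.BLk _ hU.BRm rfl) fun h => ?_
    have h1 : BL = BR := hU.toDual.ext hU.botL h
    have h2 := hU.mpos H
    rw [← hU.fBLe, h1, h0] at h2
    exact lt_irrefl _ h2
  have e : gap l k TL BL BR = (l TR - l BR) * (k BR - k BL) := by
    simp only [gap]
    rw [hU.topL, hU.botL]; ring
  rw [e]
  exact mul_pos (by linarith) (by linarith)

/-- rim points which are not lit by `v` lie to the right of the chord -/
theorem UU.gpos_rim (H : PP B f f) (hU : UU B f l k u v TL TR BL BR) {z : E} (hz : z ∈ B)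
    (hfz : f z = 0) (hv : ¬ IN B z v) : 0 < gap l k TL BL z := by
  have hm := hU.mpos H
  -- a point on a segment from a maximum point, not at the other end, is not a rim point
  have seg : ∀ {X Y : E}, X ∈ B → Y ∈ B → f X = f TL → l X = l z → l Y = l z → k X ≤ k z →
      k z < k Y → False := by
    intro X Y hX hY hfX e1 e2 h1 h2
    have hpos : 0 < k Y - k X := by linarith
    set q : ℝ := (k Y - k z) / (k Y - k X) with hq
    have hq0 : 0 < q := div_pos (by linarith) hpos
    have hq1 : q ≤ 1 := by rw [hq, div_le_one hpos]; linarith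
    have hqe : q * (k Y - k X) = k Y - k z := by rw [hq, div_mul_cancel₀ _ hpos.ne']
    have e : (1 - q) • Y + q • X = z := by
      apply hU.toDual.ext
      · simp only [map_add, map_smul, smul_eq_mul, e1, e2]; ring
      · simp only [map_add, map_smul, smul_eq_mul]
        linear_combination (-1 : ℝ) * hqe
    have h3 := H.fconc.2 hY hX (show 0 ≤ 1 - q by linarith) hq0.le (by ring)
    rw [e, hfz, hfX] at h3
    simp only [smul_eq_mul] at h3
    have h4 := mul_nonneg (show 0 ≤ 1 - q by linarith) (H.f0 _ hY)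
    have h5 := mul_pos hq0 hm
    linarith
  rcases lt_or_eq_of_le (hU.bot z hz) with h1 | h1
  · rcases lt_or_eq_of_le (hU.top z hz) with h2 | h2
    · exact hU.gpos_mid H hz h1 h2 hv
    · rcases lt_or_eq_of_le (hU.TRk z hz h2) with h3 | h3
      · exact (seg hU.TLm hU.TRm rfl (by rw [h2, hU.topL]) h2.symm (hU.TLk z hz h2) h3).elim
      · rw [hU.toDual.ext h2 h3]; exact hU.gap_TR H
  · rcases lt_or_eq_of_le (hU.BRk z hz h1.symm) with h3 | h3
    · exact (seg hU.BLm hU.BRm hU.fBLe (by rw [hU.botL, h1]) h1 (hU.BLk z hz h1.symm) h3).elim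
    · have e : z = BR := hU.toDual.ext h1.symm h3
      rw [e] at hfz ⊢
      exact hU.gap_BR H hfz

end Pool.Agent.Lib.MP_5e7226_co.MM
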