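import Pool.Agent.Lib.MP_5e7226_co.MM.Defs
import Pool.Agent.Lib.MP_5e7226_co.CM.SchemeG

/-! Rows M5 and M6 of Lemma V. -/

set_option autoImplicit false

open Set Filter Topology

namespace Pool.Agent.Lib.MP_5e7226_co.MM

open PS CM

variable {B : Set E} {f : E → ℝ}

/-- M5. Rim points near a point which is not a rim point. -/
theorem rimU (H : PP B f f) {x a : E} (hx : x ∈ B) (hfx : 0 < f x) :
    ∃ r : ℝ, 0 < r ∧ ∀ z ∈ B, ‖z - x‖ < r → f z = 0 → IN B z a → ∀ ε : ℝ, 0 < ε → ε < r →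
      Full B f f z a ε ∧ Full B f f z a (-ε) := by
  obtain ⟨r, hr, hh⟩ := sg_local H (a := a) hx (fun hrim => by
    rw [hrim.1] at hfx; exact lt_irrefl _ hfx)
  exact ⟨r, hr, fun z hz hzx hfz hin ε hε hεr =>
    ⟨hh z hz hzx ⟨hfz, hfz⟩ hin _ (by rw [abs_of_pos hε]; exact hεr),
      hh z hz hzx ⟨hfz, hfz⟩ hin _ (by rw [abs_neg, abs_of_pos hε]; exact hεr)⟩⟩

/-- M6. The scheme. `W = P + a`, `W' = P + a'`. -/
theorem scheme (H : PP B f f) {y P u v : E} {l k : E →ₗ[ℝ] ℝ} (O : Opp B y P l k u v)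
    (hy : f y = 0) {a a' b : E} {m : ℝ} (hm : ∀ x ∈ B, f x ≤ m) (hPm : f P = m)
    (hW : ∀ᶠ w in 𝓝 (P + a), w ∈ interior B ∧ f w = m)
    (hW' : ∀ᶠ w in 𝓝 (P + a'), w ∈ interior B ∧ f w = m)
    (hrim : ∀ z ∈ B, f z = 0 → IN B z a ∨ IN B z a' ∨ IN B z b) : Good7 B f := by
  obtain ⟨i1, i2⟩ := hW.self_of_nhds
  obtain ⟨j1, j2⟩ := hW'.self_of_nhds
  exact schemeG H O ⟨hy, hy⟩ (a₁ := a) (a₂ := a') (b := b)
    ⟨1, one_pos, by rwa [one_smul], by rw [one_smul, i2, hPm]⟩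
    ⟨1, one_pos, by rwa [one_smul], by rw [one_smul, j2, hPm]⟩
    (fun z hz hr => hrim z hz hr.1)

/-- M6'. The scheme, weak hypotheses. -/
theorem scheme' (H : PP B f f) {y P u v : E} {l k : E →ₗ[ℝ] ℝ} (O : Opp B y P l k u v)
    (hy : f y = 0) {W W' b : E} (hW : W ∈ interior B) (hfW : f P ≤ f W)
    (hW' : W' ∈ interior B) (hfW' : f P ≤ f W')
    (hrim : ∀ z ∈ B, f z = 0 → IN B z (W - P) ∨ IN B z (W' - P) ∨ IN B z b) : Good7 B f := by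
  exact schemeG H O ⟨hy, hy⟩ (a₁ := W - P) (a₂ := W' - P) (b := b)
    ⟨1, one_pos, by rwa [one_smul, add_sub_cancel], by rwa [one_smul, add_sub_cancel]⟩
    ⟨1, one_pos, by rwa [one_smul, add_sub_cancel], by rwa [one_smul, add_sub_cancel]⟩
    (fun z hz hr => hrim z hz hr.1)

end Pool.Agent.Lib.MP_5e7226_co.MM
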